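import Pool.Agent.Lib.MP_146384_al.T.Gen

set_option autoImplicit false

namespace Pool.Agent.Lib.MP_146384_al

open Module Function

variable {k Λ : Type} [Field k] [Ring Λ] [Algebra k Λ]

theorem proj_pi {I : Type} [Fintype I] (P : I → FM k Λ) [∀ i, Module.Projective Λ (P i).T] :
    Module.Projective Λ (FM.pi P).T := by
  classical
  exact Module.Projective.of_equiv' (DFinsupp.linearEquivFunOnFintype (R := Λ))

theorem hd_pi {I : Type} [Fintype I] (P : I → FM k Λ) (N : FM k Λ) :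
    hd (FM.pi P) N = ∑ i, hd (P i) N := by
  classical
  unfold hd
  rw [← Module.finrank_pi_fintype]
  exact (LinearMap.lsum Λ (fun i => (P i).T) k).finrank_eq.symm

theorem hd_reg [FiniteDimensional k Λ] (M : FM k Λ) : hd (FM.reg k Λ) M = M.dim :=
  (LinearMap.ringLmapEquivSelf Λ k M.T).finrank_eq

/-- The cone of an approximation of the regular module. -/
theorem exists_cone [FiniteDimensional k Λ] {J : Type} [Fintype J] (V : J → Pres k Λ)
    (hV : ∀ j l, EZ (V j) (V l).C) : ∃ (W : Pres k Λ) (Ω : Type) (_ : Fintype Ω) (c : Ω → J),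
      Gen (fun j => (V j).C) W.C ∧ (∀ M, Gen (fun j => (V j).C) M → EZ W M) ∧
      ∀ M, gg W M = ∑ ω, gg (V (c ω)) M - M.dim := by
  classical
  let b := fun j => finBasis k (V j).C.T
  let Ω := Σ j, Fin (finrank k (V j).C.T)
  choose y hy using fun ω : Ω => Submodule.mkQ_surjective _ (b ω.1 ω.2)
  have := proj_pi fun ω : Ω => (V ω.1).P1
  have := proj_pi fun ω : Ω => (V ω.1).P0
  let W : Pres k Λ :=
    { P1 := (FM.pi fun ω : Ω => (V ω.1).P1).prod (FM.reg k Λ)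
      P0 := FM.pi fun ω : Ω => (V ω.1).P0
      f := (LinearMap.piMap fun ω : Ω => (V ω.1).f).coprod (LinearMap.toSpanSingleton Λ _ y) }
  refine ⟨W, Ω, inferInstance, Sigma.fst, fun X hX => ?_, fun M hM ψ => ?_, fun M => ?_⟩
  · refine top_le_iff.1 fun z _ => ?_
    obtain ⟨x, rfl⟩ := Submodule.mkQ_surjective _ z
    rw [← Finset.univ_sum_single x, map_sum]
    refine X.sum_mem fun ω _ => hX ω.1 ((V ω.1).desc (M := W.C) ((LinearMap.range W.f).mkQ ∘ₗ
      LinearMap.single Λ (fun ω : Ω => (V ω.1).P0.T) ω) ?_) ⟨Submodule.Quotient.mk (x ω), rfl⟩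
    refine LinearMap.ext fun u => (Submodule.Quotient.mk_eq_zero _).2 ⟨(Pi.single ω u, 0), ?_⟩
    funext ω'
    change (V ω'.1).f (Pi.single (M := fun ω : Ω => (V ω.1).P1.T) ω u ω') + (0 : Λ) • y ω' = _
    rw [zero_smul, add_zero]
    exact Pi.apply_single (fun ω : Ω => (V ω.1).f) (fun _ => map_zero _) ω u ω'
  · choose π hπ using fun ω : Ω => hM.ez (hV ω.1) (ψ ∘ₗ LinearMap.inl Λ _ _ ∘ₗ
      LinearMap.single Λ (fun ω : Ω => (V ω.1).P1.T) ω)
    have key : ∀ m : M.T, ∃ g : ∀ ω : Ω, (V ω.1).C.T →ₗ[Λ] M.T, ∑ ω, g ω (b ω.1 ω.2) = m := by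
      intro m
      have h1 := hM _ fun j ρ =>
        le_iSup (fun p : Σ j, (V j).C.T →ₗ[Λ] M.T => LinearMap.range p.2) ⟨j, ρ⟩
      refine Submodule.iSup_induction _ (motive := fun m =>
        ∃ g : ∀ ω : Ω, (V ω.1).C.T →ₗ[Λ] M.T, ∑ ω, g ω (b ω.1 ω.2) = m)
        (h1.ge Submodule.mem_top) ?_ ⟨0, by simp⟩ ?_
      · rintro ⟨j, ρ⟩ _ ⟨x, rfl⟩
        refine ⟨fun ω => Pi.single (M := fun l => Fin (finrank k (V l).C.T) → (V l).C.T →ₗ[Λ] M.T)
          j (fun r => (b j).repr x r • ρ) ω.1 ω.2, ?_⟩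
        rw [Fintype.sum_sigma, Finset.sum_eq_single j]
        · have e0 := congrArg (ρ.restrictScalars k) ((b j).sum_repr x)
          simp only [map_sum, map_smul] at e0
          simpa using e0
        · intro l _ hl
          simp [Pi.single_eq_of_ne hl]
        · simp
      · rintro _ _ ⟨g, rfl⟩ ⟨g', rfl⟩
        exact ⟨g + g', by simp [Finset.sum_add_distrib]⟩
    obtain ⟨g, hg⟩ := key (ψ (0, 1) - ∑ ω, π ω (y ω))
    refine ⟨∑ ω, (π ω + g ω ∘ₗ (LinearMap.range (V ω.1).f).mkQ) ∘ₗ LinearMap.proj ω, ?_⟩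
    refine LinearMap.ext ?_
    rintro ⟨x, a⟩
    have e1 : ψ (x, a) = ∑ ω, π ω ((V ω.1).f (x ω)) + a • ψ (0, 1) := by
      have e2 : ∀ ω, π ω ((V ω.1).f (x ω)) = ψ (LinearMap.inl Λ _ Λ (Pi.single ω (x ω))) :=
        fun ω => LinearMap.congr_fun (hπ ω) (x ω)
      simp only [e2]
      rw [← map_sum, ← map_sum, Finset.univ_sum_single, ← map_smul, ← map_add]
      refine congrArg ψ (Prod.ext ?_ ?_)
      · change x = x + a • 0
        rw [smul_zero, add_zero]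
      · change a = 0 + a * 1
        rw [zero_add, mul_one]
    rw [e1, ← sub_add_cancel (ψ (0, 1)) (∑ ω, π ω (y ω)), ← hg, LinearMap.comp_apply,
      LinearMap.sum_apply, ← Finset.sum_add_distrib, Finset.smul_sum, ← Finset.sum_add_distrib]
    refine Finset.sum_congr rfl fun ω _ => ?_
    change π ω ((V ω.1).f (x ω) + a • y ω) +
      g ω ((LinearMap.range (V ω.1).f).mkQ ((V ω.1).f (x ω) + a • y ω)) = _
    rw [map_add, map_add, map_smul, map_smul, hy, Submodule.mkQ_apply,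
      (Submodule.Quotient.mk_eq_zero _).2 (LinearMap.mem_range_self _ _), zero_add, map_smul,
      smul_add]
    abel
  · unfold gg
    rw [hd_prod, hd_pi, hd_pi, hd_reg]
    push_cast
    rw [Finset.sum_sub_distrib]
    ring

theorem exists_complete [FiniteDimensional k Λ] {J : Type} [Fintype J] (V : J → Pres k Λ)
    (hV : ∀ j l, EZ (V j) (V l).C) : ∃ (I : Type) (_ : Fintype I) (Y : I → Pres k Λ),
      (∀ i, Loc (Y i)) ∧ (∀ i l, EZ (Y i) (Y l).C) ∧
      (∀ j, Gen (fun i => (Y i).C) (V j).C) ∧ (∀ i, Gen (fun j => (V j).C) (Y i).C) ∧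
      ∀ (M M' : FM k Λ) (a b : ℤ), (∀ i, a * gg (Y i) M = b * gg (Y i) M') →
        a * M.dim = b * M'.dim := by
  obtain ⟨W, Ω, _, c, w1, w2, w3⟩ := exists_cone V hV
  let V' : Option J → Pres k Λ := fun o => o.elim W V
  have g1 : ∀ o, Gen (fun j => (V j).C) (V' o).C := by
    rintro (_ | j)
    exacts [w1, Gen.self (fun j => (V j).C) j]
  have g2 : ∀ o o', EZ (V' o) (V' o').C := by
    rintro (_ | j) o'
    exacts [w2 _ (g1 o'), (g1 o').ez (hV j)]
  choose I hI Y d1 d2 d3 d4 d5 using fun o => exists_dec _ (V' o) rfl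
  refine ⟨Σ o, I o, inferInstance, fun p => Y p.1 p.2, fun p => d1 _ _, fun p p' => ?_,
    fun j => (d4 (some j)).trans fun i => Gen.self (fun p : Σ o, I o => (Y p.1 p.2).C) ⟨_, i⟩,
    fun p => ?_, fun M M' a b h => ?_⟩
  · obtain ⟨q, hq⟩ := d3 p'.1 p'.2
    exact (d2 _ _ (g2 p.1 p'.1) p.2).of_surj q hq
  · obtain ⟨q, hq⟩ := d3 p.1 p.2
    exact (g1 p.1).of_surj q hq
  · have h1 : ∀ o, a * gg (V' o) M = b * gg (V' o) M' := fun o => by
      rw [d5, d5, Finset.mul_sum, Finset.mul_sum]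
      exact Finset.sum_congr rfl fun i _ => h ⟨o, i⟩
    have h2 : a * gg W M = b * gg W M' := h1 none
    have h3 : a * ∑ ω, gg (V (c ω)) M = b * ∑ ω, gg (V (c ω)) M' := by
      rw [Finset.mul_sum, Finset.mul_sum]
      exact Finset.sum_congr rfl fun ω _ => h1 (some (c ω))
    rw [w3, w3] at h2
    linarith

theorem exists_socle {J : Type} [Fintype J] (C : J → FM k Λ)
    (hC : ∀ j (φ : Module.End Λ (C j).T), IsNilpotent φ ∨ Bijective φ) (M : FM k Λ) :
    ∀ (n : ℕ) (i : J) (φ : (C i).T →ₗ[Λ] M.T), φ ≠ 0 →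
      ∑ j, finrank k (LinearMap.range (post (C j) φ)) = n →
      ∃ (i : J) (φ : (C i).T →ₗ[Λ] M.T), φ ≠ 0 ∧
        ∀ (j : J) (ρ : (C j).T →ₗ[Λ] (C i).T), ¬ Bijective ρ → φ ∘ₗ ρ = 0 := by
  intro n
  induction n using Nat.strong_induction_on with
  | _ n ih =>
  intro i φ h0 hn
  by_contra hc
  push Not at hc
  obtain ⟨j, ρ, hρ, h1⟩ := hc i φ h0
  have hle : ∀ l, LinearMap.range (post (C l) (φ ∘ₗ ρ)) ≤ LinearMap.range (post (C l) φ) := by
    rintro l _ ⟨σ, rfl⟩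
    exact ⟨ρ ∘ₗ σ, rfl⟩
  obtain ⟨i', φ', a, b⟩ := ih _ (hn ▸ Finset.sum_lt_sum (fun l _ => Submodule.finrank_mono (hle l))
    ⟨i, Finset.mem_univ _, Submodule.finrank_lt_finrank_of_lt (lt_of_le_of_ne (hle i) fun h => by
      obtain ⟨σ, hσ⟩ : φ ∈ LinearMap.range (post (C i) (φ ∘ₗ ρ)) := h ▸ ⟨LinearMap.id, rfl⟩
      have hp : ∀ (m : ℕ) x, φ (((ρ ∘ₗ σ : Module.End Λ (C i).T) ^ m) x) = φ x := by
        intro m
        induction m with
        | zero => intro x; rfl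
        | succ m ihm =>
          intro x
          rw [pow_succ', Module.End.mul_apply, ← ihm x]
          exact LinearMap.congr_fun hσ _
      rcases hC i (ρ ∘ₗ σ) with ⟨m, hm⟩ | hb
      · exact h0 (LinearMap.ext fun x => by rw [← hp m, hm]; simp)
      · rcases hC j (σ ∘ₗ ρ) with ⟨m, hm⟩ | hb'
        · refine h1 (LinearMap.ext fun x => ?_)
          have := comm_pow (f := ρ) (a := σ ∘ₗ ρ) (b := ρ ∘ₗ σ) rfl m x
          rw [LinearMap.comp_apply, ← hp m, ← this, hm]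
          simp
        · exact hρ ⟨Injective.of_comp (f := σ) hb'.1, Surjective.of_comp (g := σ) hb.2⟩)⟩)
    j (φ ∘ₗ ρ) h1 rfl
  obtain ⟨l, τ, c, d⟩ := hc i' φ' a
  exact d (b l τ c)

theorem lift_quot {V : Pres k Λ} {M : FM k Λ} (X : Submodule Λ M.T) (h : EZ V (M.sub X))
    (ψ : V.C.T →ₗ[Λ] (M.quot X).T) : ∃ χ : V.C.T →ₗ[Λ] M.T, X.mkQ ∘ₗ χ = ψ := by
  obtain ⟨π, hπ⟩ := Module.projective_lifting_property X.mkQ (ψ ∘ₗ (LinearMap.range V.f).mkQ)
    X.mkQ_surjective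
  obtain ⟨σ, hσ⟩ := h (LinearMap.codRestrict X (π ∘ₗ V.f) fun x => by
    rw [← Submodule.Quotient.mk_eq_zero]
    refine (LinearMap.congr_fun hπ (V.f x)).trans ?_
    rw [LinearMap.comp_apply, Submodule.mkQ_apply,
      (Submodule.Quotient.mk_eq_zero _).2 (LinearMap.mem_range_self _ _), map_zero])
  refine ⟨V.desc (π - X.subtype ∘ₗ σ) (LinearMap.ext fun x => sub_eq_zero.2
    (congrArg Subtype.val (LinearMap.congr_fun hσ x)).symm), LinearMap.ext fun z => ?_⟩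
  obtain ⟨x, rfl⟩ := Submodule.Quotient.mk_surjective _ z
  change X.mkQ (π x - (σ x : M.T)) = _
  rw [map_sub, Submodule.mkQ_apply X (σ x : M.T), (Submodule.Quotient.mk_eq_zero _).2 (σ x).2,
    sub_zero]
  exact LinearMap.congr_fun hπ x

theorem HZ_of_hom {V : Pres k Λ} {M : FM k Λ} (h : ∀ ψ : V.C.T →ₗ[Λ] M.T, ψ = 0) : HZ V M :=
  fun π hπ => LinearMap.ext fun x => LinearMap.congr_fun (h (V.desc π hπ)) (Submodule.Quotient.mk x)

theorem HZ.hom {V : Pres k Λ} {M : FM k Λ} (h : HZ V M) (ψ : V.C.T →ₗ[Λ] M.T) : ψ = 0 := by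
  have := h (ψ ∘ₗ (LinearMap.range V.f).mkQ) (by
    rw [LinearMap.comp_assoc, Pres.mkQ_comp, LinearMap.comp_zero])
  refine LinearMap.ext fun z => ?_
  obtain ⟨x, rfl⟩ := Submodule.mkQ_surjective _ z
  exact LinearMap.congr_fun this x

theorem HZ.sub {V : Pres k Λ} {M : FM k Λ} (h : HZ V M) (X : Submodule Λ M.T) : HZ V (M.sub X) :=
  fun π hπ => LinearMap.ext fun x => Subtype.ext (LinearMap.congr_fun
    (h (X.subtype ∘ₗ π) (by rw [LinearMap.comp_assoc, hπ, LinearMap.comp_zero])) x)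

theorem dij_step {I : Type} [Fintype I] (Y : I → Pres k Λ) (hL : ∀ i, Loc (Y i))
    (hY : ∀ i l, EZ (Y i) (Y l).C)
    (hsp : ∀ (M M' : FM k Λ) (a b : ℤ), (∀ i, a * gg (Y i) M = b * gg (Y i) M') →
      a * M.dim = b * M'.dim) (S : FM k Λ) (hS : IsBrick S) (hG : Gen (fun i => (Y i).C) S) :
    ∃ (i : I) (N : FM k Λ) (p : I → Prop), IsBrick N ∧ N.dim ≤ (Y i).C.dim ∧
      Gen (fun i => (Y i).C) N ∧ ¬ Gen (fun l : Subtype p => (Y l).C) N ∧
      (Gen (fun l : Subtype p => (Y l).C) S ∨ S.dim ≤ N.dim) := by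
  have := hS.1
  obtain ⟨i0, φ0, h0⟩ := hG.exists_ne
  obtain ⟨i, φ, hφ, hk⟩ := exists_socle (fun i => (Y i).C) (fun j => (hL j).endo) S _ i0 φ0 h0 rfl
  let K : Submodule Λ (Y i).C.T :=
    ⨆ p : Σ j, {ρ : (Y j).C.T →ₗ[Λ] (Y i).C.T // ¬ Bijective ρ}, LinearMap.range p.2.1
  have hKE : ∀ l, EZ (Y l) ((Y i).C.sub K) := fun l =>
    EZ.iSup _ fun p => (hY l p.1).range' p.2.1
  have hKk : ∀ {M : FM k Λ} (h : (Y i).C.T →ₗ[Λ] M.T),
      (∀ (j : I) (ρ : (Y j).C.T →ₗ[Λ] (Y i).C.T), ¬ Bijective ρ → h ∘ₗ ρ = 0) →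
      K ≤ LinearMap.ker h := fun h hh =>
    iSup_le fun p => LinearMap.range_le_ker_iff.2 (hh p.1 p.2.1 p.2.2)
  let N := (Y i).C.quot K
  have hdesc : ∀ {M : FM k Λ} (h : (Y i).C.T →ₗ[Λ] M.T) (hh : K ≤ LinearMap.ker h), h ≠ 0 →
      K.liftQ h hh ≠ 0 := fun h hh h1 h2 =>
    h1 (LinearMap.ext fun x => LinearMap.congr_fun h2 (Submodule.Quotient.mk x))
  have hφ' := hdesc φ (hKk φ hk) hφ
  have hN0 : Nontrivial N.T := by
    by_contra hc
    rw [not_nontrivial_iff_subsingleton] at hc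
    exact hφ' (LinearMap.ext fun x => by rw [Subsingleton.elim x 0, map_zero, map_zero])
  have hC0 : Nontrivial (Y i).C.T := K.mkQ_surjective.nontrivial
  have hmap : ∀ (l : I) (ψ : (Y l).C.T →ₗ[Λ] N.T), ψ ≠ 0 →
      Surjective ψ ∧ Nonempty ((Y l).C.T ≃ₗ[Λ] (Y i).C.T) := by
    intro l ψ hψ
    obtain ⟨χ, rfl⟩ := lift_quot K (hKE l) ψ
    by_cases hb : Bijective χ
    · exact ⟨K.mkQ_surjective.comp hb.2, ⟨LinearEquiv.ofBijective χ hb⟩⟩
    · exact absurd (LinearMap.ext fun x => (Submodule.Quotient.mk_eq_zero _).2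
        (Submodule.mem_iSup_of_mem ⟨l, χ, hb⟩ (LinearMap.mem_range_self χ x))) hψ
  let p : I → Prop := fun l => ¬ Nonempty ((Y l).C.T ≃ₗ[Λ] (Y i).C.T)
  have hNH : ∀ l, p l → HZ (Y l) N := fun l hl => HZ_of_hom fun ψ => by
    by_contra hc
    exact hl (hmap l ψ hc).2
  have hNG : Gen (fun i => (Y i).C) N :=
    (Gen.self (fun i => (Y i).C) i).of_surj K.mkQ K.mkQ_surjective
  refine ⟨i, N, p, ⟨hN0, fun ψ hψ => bij_of_surj (Surjective.of_comp (g := K.mkQ)
    (hmap i (ψ ∘ₗ K.mkQ) fun h => hψ (LinearMap.ext fun z => ?_)).1)⟩,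
    dim_le_of_surj K.mkQ K.mkQ_surjective, hNG, fun h => ?_, ?_⟩
  · obtain ⟨x, rfl⟩ := K.mkQ_surjective z
    exact LinearMap.congr_fun h x
  · obtain ⟨l, ψ, hψ⟩ := h.exists_ne
    exact hψ ((hNH l l.2).hom ψ)
  by_cases hU : Gen (fun l : Subtype p => (Y l).C) S
  · exact Or.inl hU
  right
  let X0 : Submodule Λ S.T := ⨆ q : Σ l : Subtype p, (Y l).C.T →ₗ[Λ] S.T, LinearMap.range q.2
  have hX0 : ∀ (l : Subtype p) (π : (Y l).C.T →ₗ[Λ] S.T), LinearMap.range π ≤ X0 := fun l π =>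
    le_iSup (fun q : Σ l : Subtype p, (Y l).C.T →ₗ[Λ] S.T => LinearMap.range q.2) ⟨l, π⟩
  obtain ⟨X, ⟨hX1, hX2⟩, hmax⟩ := (wellFounded_gt (α := Submodule Λ S.T)).has_min
    {X | X ≠ ⊤ ∧ ∀ l, p l → HZ (Y l) (S.quot X)}
    ⟨X0, fun h => hU fun X hX => top_le_iff.1 (h.ge.trans (iSup_le fun q => hX q.1 q.2)),
      fun l hl => HZ.quot X0 (EZ.iSup _ fun q => (hY l q.1).range' q.2) fun π hπ => by
        rintro _ ⟨x, rfl⟩
        exact hX0 ⟨l, hl⟩ ((Y l).desc π hπ) ⟨Submodule.Quotient.mk x, rfl⟩⟩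
  have : Nontrivial (S.quot X).T := Submodule.Quotient.nontrivial_iff.2 hX1
  obtain ⟨i1, φ1, h1⟩ := (hG.of_surj (N := S.quot X) X.mkQ X.mkQ_surjective).exists_ne
  obtain ⟨i', h', hh', hk'⟩ :=
    exists_socle (fun i => (Y i).C) (fun j => (hL j).endo) (S.quot X) _ i1 φ1 h1 rfl
  obtain ⟨e⟩ : Nonempty ((Y i').C.T ≃ₗ[Λ] (Y i).C.T) := by
    by_contra hc
    exact hh' ((hX2 i' hc).hom h')
  have hle := hKk (h' ∘ₗ e.symm.toLinearMap) fun j ρ hρ => hk' j (e.symm.toLinearMap ∘ₗ ρ)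
    fun hb => hρ ((Bijective.of_comp_iff' e.symm.bijective ρ).1 hb)
  let h : N.T →ₗ[Λ] (S.quot X).T := K.liftQ _ hle
  have hh : h ≠ 0 := hdesc _ hle fun h2 => hh' (LinearMap.ext fun x => by
    simpa using LinearMap.congr_fun h2 (e x))
  have hsurj : Surjective h := by
    rw [← LinearMap.range_eq_top]
    by_contra hc
    refine hmax ((LinearMap.range h).comap X.mkQ) ⟨fun h2 => hc (top_le_iff.1 fun z _ => ?_),
      fun l hl => ?_⟩ (lt_of_le_of_ne (fun x hx => ?_) fun h2 => hh (LinearMap.ext fun z => ?_))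
    · obtain ⟨x, rfl⟩ := X.mkQ_surjective z
      exact (h2.ge Submodule.mem_top :)
    · have h3 : HZ (Y l) ((S.quot X).quot (LinearMap.range h)) :=
        HZ.quot _ ((hNG.ez (hY l)).range' h) fun π hπ => by rw [hX2 l hl π hπ]; simp
      let j : (S.quot ((LinearMap.range h).comap X.mkQ)).T →ₗ[Λ]
          ((S.quot X).quot (LinearMap.range h)).T := Submodule.mapQ _ _ X.mkQ le_rfl
      have hj : ∀ z, j z = 0 → z = 0 := fun z hz => by
        obtain ⟨x, rfl⟩ := Submodule.Quotient.mk_surjective _ z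
        exact (Submodule.Quotient.mk_eq_zero _).2
          ((Submodule.Quotient.mk_eq_zero (LinearMap.range h)).1 hz)
      exact fun π hπ => LinearMap.ext fun x => hj _ (LinearMap.congr_fun
        (h3 (j ∘ₗ π) (by rw [LinearMap.comp_assoc, hπ, LinearMap.comp_zero])) x)
    · rw [Submodule.mem_comap, Submodule.mkQ_apply, (Submodule.Quotient.mk_eq_zero _).2 hx]
      exact zero_mem _
    · obtain ⟨x, hx⟩ := X.mkQ_surjective (h z)
      rw [← hx]
      exact (Submodule.Quotient.mk_eq_zero _).2 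
        (h2.ge (show X.mkQ x ∈ LinearMap.range h from ⟨z, hx.symm⟩))
  have g1 : gg (Y i) (N.sub (LinearMap.ker h)) ≤ 0 := gg_nonpos (HZ_of_hom fun ψ => by
    by_contra hc
    have h4 := (hmap i ((LinearMap.ker h).subtype ∘ₗ ψ) fun h2 => hc (LinearMap.ext fun x =>
      Subtype.ext (LinearMap.congr_fun h2 x))).1
    refine hh (LinearMap.ext fun z => ?_)
    obtain ⟨x, rfl⟩ := h4 z
    exact (ψ x).2)
  have g2 : 0 < gg (Y i) N := by
    by_contra hc
    obtain ⟨z, hz⟩ := exists_ne (0 : N.T)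
    obtain ⟨x, rfl⟩ := K.mkQ_surjective z
    exact hz (LinearMap.congr_fun ((HZ_of_gg (hNG.ez (hY i)) (not_lt.1 hc)).hom K.mkQ) x)
  have g3 := hsp (N.sub (LinearMap.ker h)) N (gg (Y i) N) (gg (Y i) (N.sub (LinearMap.ker h)))
    fun l => by
      by_cases hl : p l
      · have a1 := gg_nonpos (hNH l hl)
        have a2 := gg_nonneg (hNG.ez (hY l))
        have a3 := gg_nonpos ((hNH l hl).sub (LinearMap.ker h))
        have a4 := gg_nonneg ((hNG.ez (hY l)).ker (hX2 l hl) h)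
        rw [le_antisymm a1 a2, le_antisymm a3 a4, mul_zero, mul_zero]
      · obtain ⟨e'⟩ := not_not.1 hl
        rw [← (hL i).gg_eq (hL l) e'.symm, ← (hL i).gg_eq (hL l) e'.symm, mul_comm]
  have g4 : (N.sub (LinearMap.ker h)).dim = 0 := by
    have a1 : gg (Y i) (N.sub (LinearMap.ker h)) * N.dim ≤ 0 :=
      mul_nonpos_of_nonpos_of_nonneg g1 (Nat.cast_nonneg _)
    by_contra hc
    have a2 : 0 < gg (Y i) N * (N.sub (LinearMap.ker h)).dim :=
      mul_pos g2 (by exact_mod_cast Nat.pos_of_ne_zero hc)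
    omega
  have hinj : Injective h := by
    by_contra hc
    have : Nontrivial (N.sub (LinearMap.ker h)).T :=
      Submodule.nontrivial_iff_ne_bot.2 fun h5 => hc (LinearMap.ker_eq_bot.1 h5)
    exact (dim_pos (N.sub (LinearMap.ker h))).ne' g4
  let E := LinearEquiv.ofBijective h ⟨hinj, hsurj⟩
  exact brick_le (S := N) hS (E.symm.toLinearMap ∘ₗ X.mkQ)
    (E.symm.surjective.comp X.mkQ_surjective) _ hφ'

theorem brick_le_of_rigid [FiniteDimensional k Λ] (hBD : BD k Λ) (B : ℕ)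
    (hB : ∀ V : Pres k Λ, EZ V V.C →
      (∀ φ : Module.End Λ V.C.T, IsNilpotent φ ∨ Bijective φ) → V.C.dim ≤ B)
    (S : FM k Λ) (hS : IsBrick S) : S.dim ≤ B := by
  classical
  obtain ⟨ι, _, L, hL⟩ := hBD B
  have key : ∀ (n : ℕ) (J : Type) [Fintype J] (V : J → Pres k Λ), (∀ j l, EZ (V j) (V l).C) →
      Gen (fun j => (V j).C) S →
      (Finset.univ.filter fun s => Gen (fun j => (V j).C) (L s)).card = n → S.dim ≤ B := by
    intro n
    induction n using Nat.strong_induction_on with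
    | _ n ih =>
    intro J _ V hV hG hn
    obtain ⟨I, _, Y, y1, y2, y3, y4, y5⟩ := exists_complete V hV
    obtain ⟨i, N, p, n1, n2, n3, n4, n5⟩ := dij_step Y y1 y2 y5 S hS (hG.trans y3)
    have n6 := n2.trans (hB _ (y2 i i) (y1 i).endo)
    rcases n5 with h | h
    · obtain ⟨s, ⟨e⟩⟩ := hL N n1 n6
      refine ih _ (hn ▸ Finset.card_lt_card ⟨fun t ht => ?_, fun hc => n4 ?_⟩) (Subtype p)
        (fun l => Y l) (fun j l => y2 j l) h rfl
      · rw [Finset.mem_filter] at ht ⊢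
        exact ⟨ht.1, ht.2.trans fun l => y4 l⟩
      · exact (Finset.mem_filter.1 (hc (Finset.mem_filter.2 ⟨Finset.mem_univ s,
          (n3.trans y4).of_surj e.toLinearMap e.surjective⟩))).2.of_surj e.symm.toLinearMap
          e.symm.surjective
    · exact h.trans n6
  refine key _ Unit (fun _ => Pres.pos (FM.reg k Λ)) (fun _ _ => EZ_pos _ _) (fun X hX => ?_) rfl
  refine top_le_iff.1 fun s _ => hX () ((Pres.pos (FM.reg k Λ)).desc
    (LinearMap.toSpanSingleton Λ S.T s) (LinearMap.comp_zero _)) ⟨Submodule.Quotient.mk 1, ?_⟩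
  exact one_smul Λ s

end Pool.Agent.Lib.MP_146384_al
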