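import Mathlib

set_option autoImplicit false

namespace Pool.Agent.Lib.MP_146384_al

theorem drozdlin_dir {σ : Type} [Fintype σ] (x : σ → ℝ) (hx : ∀ g, 0 ≤ x g) (K : ℕ) (hK : 0 < K) :
    ∃ N : ℕ, 1 ≤ N ∧ ∃ y : σ → ℕ, (∀ g, x g = 0 → y g = 0) ∧
      ∀ g, K * |(y g : ℝ) - N * x g| < 1 := by
  have hK' : (0 : ℝ) < K := by exact_mod_cast hK
  obtain ⟨a, b, hab, h⟩ := Set.Finite.exists_lt_map_eq_of_forall_mem
    (f := fun (n : ℕ) g => ⌊K * Int.fract (n * x g)⌋) (t := {z | ∀ g, z g ∈ Set.Icc (0 : ℤ) K})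
    (fun n g => ⟨Int.floor_nonneg.2 (mul_nonneg hK'.le (Int.fract_nonneg _)), by
      have h1 : K * Int.fract (n * x g) ≤ ((K : ℤ) : ℝ) := by
        push_cast
        exact mul_le_of_le_one_right hK'.le (Int.fract_lt_one _).le
      simpa using Int.floor_mono h1⟩)
    (Set.Finite.pi' fun g => Set.finite_Icc _ _)
  have hm : ∀ g, 0 ≤ ⌊b * x g⌋ - ⌊a * x g⌋ := fun g => sub_nonneg.2 (Int.floor_mono
    (mul_le_mul_of_nonneg_right (by exact_mod_cast hab.le) (hx g)))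
  refine ⟨b - a, by omega, fun g => (⌊b * x g⌋ - ⌊a * x g⌋).toNat, fun g hg => by simp [hg],
    fun g => ?_⟩
  have h1 := Int.abs_sub_lt_one_of_floor_eq_floor (congrFun h g)
  have h2 : (((⌊b * x g⌋ - ⌊a * x g⌋).toNat : ℕ) : ℝ) = (⌊b * x g⌋ : ℝ) - ⌊a * x g⌋ := by
    exact_mod_cast congrArg (fun z : ℤ => (z : ℝ)) (Int.toNat_of_nonneg (hm g))
  rw [← mul_sub, abs_mul, abs_of_pos hK'] at h1
  rw [h2, Nat.cast_sub hab.le]
  refine lt_of_eq_of_lt ?_ h1
  congr 2
  simp only [Int.fract]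
  ring

theorem drozdlin_pos {σ : Type} [Fintype σ] (A : σ → σ → ℤ) (hs : ∀ g h, A g h = A h g)
    (hA : ∀ y : σ → ℕ, y ≠ 0 → 0 < ∑ g, (y g : ℤ) * ∑ h, A g h * y h) :
    ∃ m : ℝ, 0 < m ∧ ∀ z : σ → ℝ, (∀ g, 0 ≤ z g) →
      m * (∑ g, z g) ^ 2 ≤ ∑ g, z g * ∑ h, A g h * z h := by
  classical
  rcases isEmpty_or_nonempty σ with hσ | ⟨⟨g0⟩⟩
  · exact ⟨1, one_pos, fun z _ => by simp⟩
  obtain ⟨x, hx, hmin⟩ := (isCompact_stdSimplex ℝ σ).exists_isMinOn
    ⟨_, single_mem_stdSimplex ℝ g0⟩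
    (f := fun z : σ → ℝ => ∑ g, z g * ∑ h, A g h * z h) (Continuous.continuousOn (by fun_prop))
  set m := ∑ g, x g * ∑ h, A g h * x h with hm
  have hom : ∀ z : σ → ℝ, (∀ g, 0 ≤ z g) →
      m * (∑ g, z g) ^ 2 ≤ ∑ g, z g * ∑ h, A g h * z h := fun z hz => by
    rcases (Finset.sum_nonneg fun g (_ : g ∈ Finset.univ) => hz g).eq_or_lt with h0 | h0
    · have h1 := (Finset.sum_eq_zero_iff_of_nonneg fun g _ => hz g).1 h0.symm
      rw [← h0, Finset.sum_eq_zero fun g hg => by rw [h1 g hg, zero_mul]]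
      simp
    · have h1 : m ≤ ∑ g, z g / (∑ g, z g) * ∑ h, A g h * (z h / ∑ g, z g) :=
        hmin (a := fun g => z g / ∑ g, z g)
          ⟨fun g => div_nonneg (hz g) h0.le, by rw [← Finset.sum_div, div_self h0.ne']⟩
      simp only [← mul_div_assoc, ← Finset.sum_div, div_mul_eq_mul_div] at h1
      rwa [div_div, le_div_iff₀ (mul_pos h0 h0), ← sq] at h1
  refine ⟨m, not_le.1 fun hm0 => ?_, hom⟩
  have hL : ∀ g, 0 < x g → ∑ h, A g h * x h ≤ m := fun g hg => by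
    have key : ∀ t, 0 < t → t ≤ x g → 2 * (∑ h, A g h * x h - m) ≤ t * (A g g - m) := by
      intro t h0 h1
      have h2 := hom (fun h => x h - if h = g then t else 0) fun h => by
        split_ifs with e
        · rw [e]
          linarith
        · simpa using hx.1 h
      have h3 : ∑ h, x h * (A h g * t) = t * ∑ h, A g h * x h := by
        rw [Finset.mul_sum]
        exact Finset.sum_congr rfl fun h _ => by rw [hs h g]; ring
      simp only [mul_sub, sub_mul, Finset.sum_sub_distrib, mul_ite, ite_mul, mul_zero, zero_mul,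
        Finset.sum_ite_eq', Finset.mem_univ, if_true, hx.2, h3, ← hm] at h2
      refine le_of_mul_le_mul_left ?_ h0
      nlinarith
    by_contra hc
    have hc := sub_pos.2 (not_le.1 hc)
    have h4 := key (min (x g) ((∑ h, A g h * x h - m) / (|A g g - m| + 1)))
      (lt_min hg (by positivity)) (min_le_left _ _)
    have h5 := (le_div_iff₀ (by positivity)).1
      (min_le_right (x g) ((∑ h, A g h * x h - m) / (|A g g - m| + 1)))
    have h6 : 0 < min (x g) ((∑ h, A g h * x h - m) / (|A g g - m| + 1)) :=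
      lt_min hg (by positivity)
    nlinarith [mul_le_mul_of_nonneg_left (le_abs_self (A g g - m)) h6.le]
  obtain ⟨K, hK⟩ := exists_nat_gt (∑ _g : σ, (1 : ℝ) + ∑ g, ∑ h, |(A g h : ℝ)|)
  have p1 : 0 ≤ ∑ _g : σ, (1 : ℝ) := by positivity
  have p2 : 0 ≤ ∑ g, ∑ h, |(A g h : ℝ)| := by positivity
  have hK' : (0 : ℝ) < K := by linarith
  obtain ⟨N, hN, y, hy0, hy⟩ := drozdlin_dir x hx.1 K (by exact_mod_cast hK')
  have hN' : (1 : ℝ) ≤ N := by exact_mod_cast hN
  refine (hA y fun h0 => ?_).not_ge (Finset.sum_nonpos fun g _ => ?_)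
  · have h1 : ∑ g, K * (N * x g) ≤ ∑ _g : σ, (1 : ℝ) := Finset.sum_le_sum fun g _ => by
      have := hy g
      rw [h0, Pi.zero_apply, Nat.cast_zero, zero_sub, abs_neg] at this
      exact (mul_le_mul_of_nonneg_left (le_abs_self _) hK'.le).trans this.le
    rw [← Finset.mul_sum, ← Finset.mul_sum, hx.2] at h1
    nlinarith
  · rcases (hx.1 g).eq_or_lt with h0 | h0
    · simp [hy0 g h0.symm]
    · refine mul_nonpos_of_nonneg_of_nonpos (Int.natCast_nonneg _) (Int.lt_add_one_iff.1 ?_)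
      have h1 : K * ∑ h, (A g h : ℝ) * (y h - N * x h) ≤ ∑ h, |(A g h : ℝ)| := by
        rw [Finset.mul_sum]
        refine Finset.sum_le_sum fun h _ => ?_
        have h2 : (A g h : ℝ) * (y h - N * x h) ≤ |(A g h : ℝ)| * |y h - N * x h| :=
          (le_abs_self _).trans (abs_mul _ _).le
        nlinarith [hy h, abs_nonneg (A g h : ℝ)]
      have h3 : ∑ h, |(A g h : ℝ)| ≤ ∑ g, ∑ h, |(A g h : ℝ)| :=
        Finset.single_le_sum (f := fun g => ∑ h, |(A g h : ℝ)|) (fun _ _ => by positivity)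
          (Finset.mem_univ g)
      have h4 : ∑ h, (A g h : ℝ) * (y h - N * x h) =
          ∑ h, (A g h : ℝ) * y h - N * ∑ h, (A g h : ℝ) * x h := by
        rw [Finset.mul_sum, ← Finset.sum_sub_distrib]
        exact Finset.sum_congr rfl fun h _ => by ring
      have h5 : ∑ h, (A g h : ℝ) * (y h - N * x h) < 1 := lt_of_mul_lt_mul_left (a := (K : ℝ))
        (by linarith) hK'.le
      have h6 : ∑ h, (A g h : ℝ) * y h < 1 := by nlinarith [hL g h0]
      rw [zero_add]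
      exact_mod_cast h6

theorem drozdlin_core {σ : Type} [Fintype σ] (β : (σ → ℕ) →+ (σ → ℕ) →+ ℤ) (D : (σ → ℕ) →+ ℤ)
    (H : ∀ v, (0 < D v ∧ 0 < β v v) ∨ (D v = 0 ∧ ∀ w, β v w = 0 ∧ β w v = 0)) :
    ∃ B : ℤ, ∀ v, β v v ≤ 4 * D v + 1 → D v ≤ B := by
  classical
  let e : σ → σ → ℕ := fun g => Pi.single g 1
  have hexp : ∀ (F : (σ → ℕ) →+ ℤ) v, F v = ∑ g, (v g : ℤ) * F (e g) := fun F v => by
    have hs : v = ∑ g, v g • e g := by
      funext j
      simp [e, Finset.sum_apply, Pi.single_apply]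
    conv_lhs => rw [hs]
    rw [map_sum]
    exact Finset.sum_congr rfl fun g _ => by rw [map_nsmul, nsmul_eq_mul]
  have hD0 : ∀ v, 0 ≤ D v := fun v => (H v).elim (fun h => h.1.le) fun h => h.1.ge
  have hq0 : ∀ v, 0 ≤ β v v := fun v => (H v).elim (fun h => h.2.le) fun h => (h.2 v).1.ge
  let A : σ → σ → ℤ := fun g h =>
    β (e g) (e h) + β (e h) (e g) + if g = h then (if D (e g) = 0 then 1 else 0) else 0
  have hQ : ∀ y : σ → ℕ, ∑ g, (y g : ℤ) * ∑ h, A g h * y h =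
      2 * β y y + ∑ g, if D (e g) = 0 then (y g : ℤ) * y g else 0 := fun y => by
    have h1 : ∀ g, ∑ h, β (e g) (e h) * y h = β (e g) y := fun g => by
      rw [hexp (β (e g)) y]
      exact Finset.sum_congr rfl fun h _ => mul_comm _ _
    have h2 : ∀ g, ∑ h, β (e h) (e g) * y h = β y (e g) := fun g => by
      rw [show β y (e g) = β.flip (e g) y from rfl, hexp (β.flip (e g)) y]
      exact Finset.sum_congr rfl fun h _ => mul_comm _ _
    have h3 : β y y = ∑ g, (y g : ℤ) * β (e g) y := hexp (β.flip y) y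
    simp only [A, add_mul, mul_add, Finset.sum_add_distrib, h1, h2, ite_mul, zero_mul, one_mul,
      Finset.sum_ite_eq, Finset.mem_univ, if_true, mul_ite, mul_zero]
    rw [← h3, ← hexp (β y) y]
    ring
  obtain ⟨m, hm, hb⟩ := drozdlin_pos A (fun g h => by
    by_cases e' : g = h
    · rw [e']
    · simp only [A, if_neg e', if_neg (Ne.symm e'), add_comm]) fun y hy => by
      rw [hQ]
      have h1 : ∀ g ∈ Finset.univ, 0 ≤ if D (e g) = 0 then (y g : ℤ) * y g else 0 :=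
        fun g _ => by positivity
      rcases H y with h | h
      · linarith [Finset.sum_nonneg h1, h.2]
      · obtain ⟨g, hg⟩ := Function.ne_iff.1 hy
        have hg' : (0 : ℤ) < y g := by exact_mod_cast Nat.pos_of_ne_zero hg
        have h2 := (Finset.sum_eq_zero_iff_of_nonneg fun g _ =>
          mul_nonneg (Int.natCast_nonneg (y g)) (hD0 (e g))).1 ((hexp D y).symm.trans h.1) g
          (Finset.mem_univ g)
        have h3 := Finset.single_le_sum h1 (Finset.mem_univ g)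
        rw [if_pos ((mul_eq_zero.1 h2).resolve_left hg'.ne')] at h3
        linarith [hq0 y, mul_pos hg' hg']
  let M : ℤ := ∑ g, D (e g)
  have hM : (0 : ℝ) ≤ M := by exact_mod_cast Finset.sum_nonneg fun g _ => hD0 (e g)
  refine ⟨⌈M * ((8 * M + 2) / m)⌉, fun v hv => ?_⟩
  let y : σ → ℕ := fun g => if D (e g) = 0 then 0 else v g
  have hrad : ∀ (F : (σ → ℕ) →+ ℤ), (∀ g, D (e g) = 0 → F (e g) = 0) → F v = F y := fun F hF => by
    rw [hexp F v, hexp F y]
    refine Finset.sum_congr rfl fun g _ => ?_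
    by_cases hg : D (e g) = 0
    · simp [hF g hg]
    · simp [y, hg]
  have hr : ∀ g, D (e g) = 0 → ∀ w, β (e g) w = 0 ∧ β w (e g) = 0 := fun g hg =>
    ((H (e g)).resolve_left fun h => h.1.ne' hg).2
  have h1 : β v v = β y y :=
    (hrad (β v) fun g hg => (hr g hg v).2).trans (hrad (β.flip y) fun g hg => (hr g hg y).1)
  have h2 : D v ≤ M * ∑ g, (y g : ℤ) := by
    rw [hrad D fun _ h => h, hexp D y, Finset.mul_sum]
    refine Finset.sum_le_sum fun g _ => ?_
    rw [mul_comm]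
    exact mul_le_mul_of_nonneg_right (Finset.single_le_sum (f := fun g => D (e g))
      (fun g _ => hD0 _) (Finset.mem_univ g)) (Int.natCast_nonneg _)
  have h3 := hQ y
  rw [Finset.sum_eq_zero (f := fun g => if D (e g) = 0 then (y g : ℤ) * y g else 0)
    (fun g _ => by by_cases hg : D (e g) = 0 <;> simp [y, hg]), add_zero, ← h1] at h3
  have h4 := hb (fun g => y g) fun g => Nat.cast_nonneg _
  have h5 : ∑ g, (y g : ℝ) * ∑ h, (A g h : ℝ) * y h = 2 * β v v := by exact_mod_cast h3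
  have h6 : (D v : ℝ) ≤ M * ((∑ g, y g : ℕ) : ℝ) := by exact_mod_cast h2
  have h7 : (β v v : ℝ) ≤ 4 * D v + 1 := by exact_mod_cast hv
  rw [h5, ← Nat.cast_sum] at h4
  generalize ∑ g, y g = s at h4 h6
  have h8 : (s : ℝ) ≤ (8 * M + 2) / m := by
    rcases Nat.eq_zero_or_pos s with rfl | h0
    · rw [Nat.cast_zero]
      positivity
    · have h9 : (1 : ℝ) ≤ s := by exact_mod_cast h0
      rw [le_div_iff₀ hm]
      refine le_of_mul_le_mul_left ?_ (by linarith : (0 : ℝ) < s)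
      nlinarith
  exact_mod_cast (h6.trans (mul_le_mul_of_nonneg_left h8 hM)).trans (Int.le_ceil _)

theorem drozd_lin {ι : Type} [Fintype ι] (T : Set ((ι → ℕ) × (ι → ℕ))) (hT : T.Finite)
    (β : ((ι → ℕ) × (ι → ℕ)) →+ ((ι → ℕ) × (ι → ℕ)) →+ ℤ) (D : ((ι → ℕ) × (ι → ℕ)) →+ ℤ)
    (H : ∀ v : (ι → ℕ) × (ι → ℕ), (∀ t ∈ T, ∑ i, v.1 i * t.1 i ≤ ∑ i, v.2 i * t.2 i) →
      (0 < D v ∧ 0 < β v v) ∨ (D v = 0 ∧ ∀ w, β v w = 0 ∧ β w v = 0)) :
    ∃ B : ℤ, ∀ v : (ι → ℕ) × (ι → ℕ), (∀ t ∈ T, ∑ i, v.1 i * t.1 i ≤ ∑ i, v.2 i * t.2 i) →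
      β v v ≤ 4 * D v + 1 → D v ≤ B := by
  classical
  have := hT.fintype
  let P : AddSubmonoid (((ι → ℕ) × (ι → ℕ)) × (T → ℕ)) :=
    { carrier := {x | ∀ t : T, ∑ i, x.1.1 i * t.1.1 i + x.2 t = ∑ i, x.1.2 i * t.1.2 i}
      zero_mem' := fun t => by simp
      add_mem' := fun {a b} ha hb t => by
        have h1 := ha t
        have h2 := hb t
        simp only [Prod.fst_add, Prod.snd_add, Pi.add_apply, add_mul, Finset.sum_add_distrib]
        omega }
  have hP : P.FG := AddSubmonoid.fg_of_subtractive fun a ha b hab t => by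
    have h1 := ha t
    have h2 := hab t
    simp only [Prod.fst_add, Prod.snd_add, Pi.add_apply, add_mul, Finset.sum_add_distrib] at h2
    omega
  obtain ⟨S, hS⟩ := hP
  let φ : (S → ℕ) →+ (((ι → ℕ) × (ι → ℕ)) × (T → ℕ)) :=
    { toFun := fun n => ∑ g : S, n g • g.1
      map_zero' := by simp
      map_add' := fun a b => by simp only [Pi.add_apply, add_nsmul, Finset.sum_add_distrib] }
  have hφ : ∀ n, φ n ∈ P := fun n => by
    rw [← hS]
    exact AddSubmonoid.sum_mem _ fun g _ =>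
      AddSubmonoid.nsmul_mem _ (AddSubmonoid.subset_closure g.2) _
  let ψ : (S → ℕ) →+ ((ι → ℕ) × (ι → ℕ)) := (AddMonoidHom.fst _ _).comp φ
  obtain ⟨B, hB⟩ := drozdlin_core ((β.comp ψ).flip.comp ψ).flip (D.comp ψ) fun n => by
    rcases H (ψ n) (fun t ht => Nat.le.intro (hφ n ⟨t, ht⟩)) with h | h
    · exact Or.inl h
    · exact Or.inr ⟨h.1, fun w => h.2 (ψ w)⟩
  refine ⟨B, fun v hv hq => ?_⟩
  have hm : (v, fun t : T => ∑ i, v.2 i * t.1.2 i - ∑ i, v.1 i * t.1.1 i) ∈ P := fun t =>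
    Nat.add_sub_cancel' (hv t.1 t.2)
  rw [← hS] at hm
  obtain ⟨n, hn⟩ := AddSubmonoid.mem_closure_finset'.1 hm
  have e : v = ψ n := congrArg Prod.fst hn
  rw [e] at hq ⊢
  exact hB n hq

end Pool.Agent.Lib.MP_146384_al
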