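import Mathlib

set_option autoImplicit false

namespace Pool.Agent.Lib.MP_146384_al

open Module

variable {k T : Type} [Field k] [AddCommGroup T] [Module k T] [FiniteDimensional k T]
  (R : Submodule k (Module.End k T))

attribute [local instance 100] LieRing.ofAssociativeRing in
/-- Engel: a vector outside `Y` that `R` maps into `Y`. -/
theorem five_step (hmul : ∀ a ∈ R, ∀ b ∈ R, a * b ∈ R) (hnil : ∀ a ∈ R, IsNilpotent a)
    {Y : Submodule k T} (hY : Y ≠ ⊤) : ∃ y ∉ Y, ∀ ρ ∈ R, ρ y ∈ Y := by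
  let L : LieSubalgebra k (Module.End k T) :=
    { R with lie_mem' := fun ha hb => R.sub_mem (hmul _ ha _ hb) (hmul _ hb _ ha) }
  have h1 : LieModule.IsNilpotent L T :=
    (LieModule.isNilpotent_iff_forall' (R := k)).2 fun x => hnil _ x.2
  obtain ⟨n, hn⟩ := LieModule.IsNilpotent.nilpotent k L T
  by_contra! h
  have h2 : ∀ i, ∃ y ∈ LieModule.lowerCentralSeries k L T i, y ∉ Y := fun i => by
    induction i with
    | zero => simpa [Submodule.eq_top_iff'] using hY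
    | succ i ih =>
      obtain ⟨y, h3, h4⟩ := ih
      obtain ⟨ρ, h5, h6⟩ := h y h4
      refine ⟨_, ?_, h6⟩
      rw [LieModule.lowerCentralSeries_succ]
      exact LieSubmodule.lie_mem_lie (LieSubmodule.mem_top (⟨ρ, h5⟩ : L)) h3
  obtain ⟨y, h3, h4⟩ := h2 n
  rw [hn, LieSubmodule.mem_bot] at h3
  exact h4 (h3 ▸ Y.zero_mem)

theorem five_ind (hmul : ∀ a ∈ R, ∀ b ∈ R, a * b ∈ R) (hnil : ∀ a ∈ R, IsNilpotent a)
    (Y : Submodule k T) : (∀ ρ ∈ R, ∀ y ∈ Y, ρ y ∈ Y) → ∀ (m : ℕ) (S : Submodule k (End k T)),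
    (∀ b ∈ S, (∀ t, b t ∈ Y) → b = 0) → (∀ j < m, j * finrank k T < finrank k S) →
    ∃ (φ : Fin m → Module.End k T) (v : Fin m → Module.Dual k T), (∀ a, φ a ∈ S) ∧
      (∀ a c, a ≠ c → ∀ t, v c (φ a t) = 0) ∧ (∀ c, ∃ t, v c (φ c t) = 1) ∧
      (∀ c, ∀ ρ ∈ R, ∀ t, v c (ρ (φ c t)) = 0) ∧ ∀ c, ∀ y ∈ Y, v c y = 0 := by
  induction Y using WellFoundedGT.induction with | _ Y ih => ?_
  rintro hY (_ | m) S hS hm
  · exact ⟨0, 0, nofun, nofun, nofun, nofun, nofun⟩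
  obtain ⟨y, h1, h2⟩ := five_step R hmul hnil (Y := Y) fun h => by
    have h0 : S = ⊥ := (Submodule.eq_bot_iff _).2 fun b hb => hS b hb fun _ => h ▸ trivial
    subst h0
    simpa using hm 0 m.succ_pos
  have h3 : ∀ ρ ∈ R, ∀ z ∈ Y ⊔ k ∙ y, ρ z ∈ Y := fun ρ hρ =>
    show Y ⊔ k ∙ y ≤ Y.comap ρ from
      sup_le (hY ρ hρ) ((Submodule.span_singleton_le_iff_mem _ _).2 (h2 ρ hρ))
  replace ih := ih (Y ⊔ k ∙ y)
    (left_lt_sup.2 (mt (Submodule.span_singleton_le_iff_mem _ _).1 h1))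
    fun ρ hρ z hz => Submodule.mem_sup_left (h3 ρ hρ z hz)
  by_cases h4 : ∀ b ∈ S, (∀ t, b t ∈ Y ⊔ k ∙ y) → b = 0
  · obtain ⟨φ, v, a1, a2, a3, a4, a5⟩ := ih _ S h4 hm
    exact ⟨φ, v, a1, a2, a3, a4, fun c z hz => a5 c z (Submodule.mem_sup_left hz)⟩
  push Not at h4
  obtain ⟨b, hb, h4, h5⟩ := h4
  obtain ⟨w, h6, h7⟩ := Y.exists_le_ker_of_notMem h1
  have h8 : ∀ z ∈ Y ⊔ k ∙ y, w z = 0 → z ∈ Y := fun z hz h => by
    obtain ⟨x, hx, _, h9, rfl⟩ := Submodule.mem_sup.1 hz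
    obtain ⟨c, rfl⟩ := Submodule.mem_span_singleton.1 h9
    rw [map_add, h7 hx, zero_add, map_smul, smul_eq_mul, mul_eq_zero_iff_right h6] at h
    simpa [h] using hx
  let f := (LinearMap.llcomp k T T k w).domRestrict S
  have h9 : ∀ c ∈ (LinearMap.ker f).map S.subtype, c ∈ S ∧ ∀ t, w (c t) = 0 := by
    rintro _ ⟨c, hc, rfl⟩
    exact ⟨c.2, fun t => DFunLike.congr_fun hc t⟩
  obtain ⟨φ, v, a1, a2, a3, a4, a5⟩ := ih m ((LinearMap.ker f).map S.subtype)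
    (fun c hc h => hS c (h9 c hc).1 fun t => h8 _ (h t) ((h9 c hc).2 t)) fun j hj => by
      have e1 := hm (j + 1) (Nat.succ_lt_succ hj)
      have e2 := (LinearMap.range f).finrank_le.trans_eq (Subspace.dual_finrank_eq (K := k))
      rw [← f.finrank_range_add_finrank_ker, add_one_mul] at e1
      rw [Submodule.finrank_map_subtype_eq]
      exact Nat.lt_of_add_lt_add_right ((e1.trans_le (Nat.add_le_add_right e2 _)).trans_eq (add_comm _ _))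
  obtain ⟨t, ht⟩ : ∃ t, w (b t) ≠ 0 := by
    by_contra! h
    exact h5 (hS b hb fun t => h8 _ (h4 t) (h t))
  refine ⟨Fin.cons b φ, Fin.cons w v, Fin.cases hb fun a => (h9 _ (a1 a)).1,
    Fin.cases (Fin.cases (fun h => absurd rfl h) fun c _ t => a5 c _ (h4 t)) fun a =>
      Fin.cases (fun _ => (h9 _ (a1 a)).2) fun c h => a2 a c fun e => h (e ▸ rfl),
    Fin.cases ⟨(w (b t))⁻¹ • t, by simp [ht]⟩ a3,
    Fin.cases (fun ρ hρ t => h7 (h3 ρ hρ _ (h4 t))) a4,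
    Fin.cases (fun z hz => h7 hz) fun c z hz => a5 c z (Submodule.mem_sup_left hz)⟩

theorem exists_five {k T : Type} [Field k] [AddCommGroup T] [Module k T] [FiniteDimensional k T]
    (R : Submodule k (Module.End k T)) (hmul : ∀ a ∈ R, ∀ b ∈ R, a * b ∈ R)
    (hnil : ∀ a ∈ R, IsNilpotent a) (h : 4 * finrank k T < finrank k R) :
    ∃ (φ : Fin 5 → Module.End k T) (v : Fin 5 → Module.Dual k T), (∀ a, φ a ∈ R) ∧
      (∀ a c, a ≠ c → ∀ t, v c (φ a t) = 0) ∧ (∀ c, ∃ t, v c (φ c t) = 1) ∧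
      ∀ c, ∀ ρ ∈ R, ∀ t, v c (ρ (φ c t)) = 0 := by
  obtain ⟨φ, v, a1, a2, a3, a4, -⟩ := five_ind R hmul hnil ⊥ (fun ρ _ y hy => by simp_all) 5 R
    (fun b _ h => LinearMap.ext h) fun j hj => (Nat.mul_le_mul_right _ (Nat.le_of_lt_succ hj)).trans_lt h
  exact ⟨φ, v, a1, a2, a3, a4⟩

end Pool.Agent.Lib.MP_146384_al
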