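import Pool.Agent.Lib.MP_146384_al.R.Defs

set_option autoImplicit false

namespace Pool.Agent.Lib.MP_146384_al

open Module Function

variable {k Λ : Type} [Field k] [Ring Λ] [Algebra k Λ]

/-- `M` is generated by the modules `C j`. -/
def Gen {J : Type} (C : J → FM k Λ) (M : FM k Λ) : Prop :=
  ∀ X : Submodule Λ M.T, (∀ (j : J) (π : (C j).T →ₗ[Λ] M.T), LinearMap.range π ≤ X) → X = ⊤

theorem Gen.trans {J J' : Type} {C : J → FM k Λ} {C' : J' → FM k Λ} {M : FM k Λ} (h : Gen C M)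
    (h' : ∀ j, Gen C' (C j)) : Gen C' M := fun X hX => h X fun j π => by
  have := h' j (X.comap π) fun l ρ => by
    rintro _ ⟨x, rfl⟩
    exact hX l (π ∘ₗ ρ) ⟨x, rfl⟩
  rintro _ ⟨x, rfl⟩
  exact (this.ge Submodule.mem_top :)

theorem Gen.self {J : Type} (C : J → FM k Λ) (j : J) : Gen C (C j) := fun X hX =>
  top_le_iff.1 fun x _ => hX j LinearMap.id ⟨x, rfl⟩

theorem Gen.of_surj {J : Type} {C : J → FM k Λ} {M N : FM k Λ} (h : Gen C M)
    (q : M.T →ₗ[Λ] N.T) (hq : Surjective q) : Gen C N := fun X hX => by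
  have := h (X.comap q) fun l ρ => by
    rintro _ ⟨x, rfl⟩
    exact hX l (q ∘ₗ ρ) ⟨x, rfl⟩
  refine top_le_iff.1 fun y _ => ?_
  obtain ⟨x, rfl⟩ := hq y
  exact (this.ge Submodule.mem_top :)

theorem Gen.exists_ne {J : Type} {C : J → FM k Λ} {M : FM k Λ} (h : Gen C M) [Nontrivial M.T] :
    ∃ (j : J) (π : (C j).T →ₗ[Λ] M.T), π ≠ 0 := by
  by_contra hc
  push Not at hc
  exact bot_ne_top (h ⊥ fun j π => (LinearMap.range_eq_bot.2 (hc j π)).le)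

theorem EZ.sup {Y : Pres k Λ} {M : FM k Λ} {A B : Submodule Λ M.T} (hA : EZ Y (M.sub A))
    (hB : EZ Y (M.sub B)) : EZ Y (M.sub (A ⊔ B)) := by
  have h5 : EZ Y ((M.sub A).prod (M.sub B)) :=
    hA.ext hB (LinearMap.inl Λ _ _) (LinearMap.snd Λ _ _)
      Prod.snd_surjective (by rintro ⟨a, b⟩ hb; exact ⟨a, Prod.ext rfl hb.symm⟩)
  refine h5.of_surj ((Submodule.inclusion le_sup_left).coprod
    (Submodule.inclusion le_sup_right)) ?_
  rintro ⟨z, hz⟩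
  obtain ⟨a, ha, b, hb, rfl⟩ := Submodule.mem_sup.1 hz
  exact ⟨(⟨a, ha⟩, ⟨b, hb⟩), rfl⟩

theorem EZ.iSup {Y : Pres k Λ} {M : FM k Λ} {I : Type} (A : I → Submodule Λ M.T)
    (h : ∀ i, EZ Y (M.sub (A i))) : EZ Y (M.sub (⨆ i, A i)) := by
  obtain ⟨t, ⟨ht1, ht2⟩, hmax⟩ := (wellFounded_gt (α := Submodule Λ M.T)).has_min
    {t | EZ Y (M.sub t) ∧ t ≤ ⨆ i, A i} ⟨⊥, EZ.of_subsingleton _ _, bot_le⟩
  have : t = ⨆ i, A i := le_antisymm ht2 (iSup_le fun i => by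
    by_contra hc
    exact hmax _ ⟨ht1.sup (h i), sup_le ht2 (le_iSup A i)⟩ (left_lt_sup.2 hc))
  exact this ▸ ht1

theorem EZ.range' {Y : Pres k Λ} {C M : FM k Λ} (h : EZ Y C) (π : C.T →ₗ[Λ] M.T) :
    EZ Y (M.sub (LinearMap.range π)) :=
  h.of_surj (N := M.sub _) π.rangeRestrict π.surjective_rangeRestrict

theorem Gen.ez {J : Type} {C : J → FM k Λ} {M : FM k Λ} (h : Gen C M) {Y : Pres k Λ}
    (hY : ∀ j, EZ Y (C j)) : EZ Y M := by
  have h1 := EZ.iSup (M := M) (fun p : Σ j, (C j).T →ₗ[Λ] M.T => LinearMap.range p.2)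
    fun p => (hY p.1).range' p.2
  rw [h _ fun j π => le_iSup (fun p : Σ j, (C j).T →ₗ[Λ] M.T => LinearMap.range p.2) ⟨j, π⟩] at h1
  exact h1.of_surj (Submodule.topEquiv).toLinearMap Submodule.topEquiv.surjective

theorem exists_chain {V V' : Pres k Λ} (φ : V.C.T →ₗ[Λ] V'.C.T) :
    ∃ (e1 : V.P1.T →ₗ[Λ] V'.P1.T) (e0 : V.P0.T →ₗ[Λ] V'.P0.T), V'.f ∘ₗ e1 = e0 ∘ₗ V.f ∧
      (LinearMap.range V'.f).mkQ ∘ₗ e0 = φ ∘ₗ (LinearMap.range V.f).mkQ := by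
  obtain ⟨e0, h0⟩ := Module.projective_lifting_property (LinearMap.range V'.f).mkQ
    (φ ∘ₗ (LinearMap.range V.f).mkQ) (Submodule.mkQ_surjective _)
  obtain ⟨e1, h1⟩ := lift_range V'.f (e0 ∘ₗ V.f) fun x => by
    rw [← Submodule.Quotient.mk_eq_zero]
    have := LinearMap.congr_fun h0 (V.f x)
    simp only [LinearMap.comp_apply, Submodule.mkQ_apply] at this
    rw [LinearMap.comp_apply, this,
      (Submodule.Quotient.mk_eq_zero _).2 (LinearMap.mem_range_self V.f x), map_zero]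
  exact ⟨e1, e0, h1, h0⟩

/-- Indecomposable presentations. -/
def Loc (V : Pres k Λ) : Prop :=
  ∀ (e1 : Module.End Λ V.P1.T) (e0 : Module.End Λ V.P0.T), V.f ∘ₗ e1 = e0 ∘ₗ V.f →
    (IsNilpotent e1 ∧ IsNilpotent e0) ∨ (Bijective e1 ∧ Bijective e0)

theorem comm_pow {A B : Type} [AddCommGroup A] [Module Λ A] [AddCommGroup B] [Module Λ B]
    {f : A →ₗ[Λ] B} {a : Module.End Λ A} {b : Module.End Λ B} (h : f ∘ₗ a = b ∘ₗ f) (m : ℕ)
    (x : A) : f ((a ^ m) x) = (b ^ m) (f x) := by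
  induction m generalizing x with
  | zero => rfl
  | succ m ih =>
    rw [pow_succ, pow_succ, Module.End.mul_apply, Module.End.mul_apply, ih]
    exact congrArg _ (LinearMap.congr_fun h x)

theorem Loc.endo {V : Pres k Λ} (h : Loc V) (φ : Module.End Λ V.C.T) :
    IsNilpotent φ ∨ Bijective φ := by
  obtain ⟨e1, e0, h1, h0⟩ := exists_chain φ
  rcases h e1 e0 h1 with ⟨-, n, hn⟩ | ⟨-, hb⟩
  · refine Or.inl ⟨n, LinearMap.ext fun z => ?_⟩
    obtain ⟨x, rfl⟩ := Submodule.mkQ_surjective _ z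
    rw [← comm_pow h0, hn, LinearMap.zero_apply, map_zero, LinearMap.zero_apply]
  · refine Or.inr (bij_of_surj fun z => ?_)
    obtain ⟨x, rfl⟩ := Submodule.mkQ_surjective _ z
    obtain ⟨y, rfl⟩ := hb.2 x
    exact ⟨_, (LinearMap.congr_fun h0 y).symm⟩

theorem Loc.inj {V V' : Pres k Λ} (h : Loc V) [Nontrivial V.C.T] (e : V.C.T ≃ₗ[Λ] V'.C.T) :
    ∃ (a1 : V.P1.T →ₗ[Λ] V'.P1.T) (a0 : V.P0.T →ₗ[Λ] V'.P0.T), Injective a1 ∧ Injective a0 := by
  obtain ⟨a1, a0, h1, h0⟩ := exists_chain e.toLinearMap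
  obtain ⟨b1, b0, g1, g0⟩ := exists_chain e.symm.toLinearMap
  rcases h (b1 ∘ₗ a1) (b0 ∘ₗ a0) (by
    rw [← LinearMap.comp_assoc, g1, LinearMap.comp_assoc, h1, LinearMap.comp_assoc])
    with ⟨-, n, hn⟩ | ⟨c1, c0⟩
  · obtain ⟨z, hz⟩ := exists_ne (0 : V.C.T)
    obtain ⟨x, rfl⟩ := Submodule.mkQ_surjective _ z
    have := comm_pow (f := (LinearMap.range V.f).mkQ) (a := b0 ∘ₗ a0) (b := 1) (by
      rw [← LinearMap.comp_assoc, g0, LinearMap.comp_assoc, h0]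
      exact LinearMap.ext fun y => e.symm_apply_apply _) n x
    rw [hn, one_pow, LinearMap.zero_apply, map_zero] at this
    exact absurd this.symm hz
  · exact ⟨a1, a0, Injective.of_comp (f := b1) c1.1, Injective.of_comp (f := b0) c0.1⟩

theorem hd_eq_of_inj {P Q : FM k Λ} (a : P.T →ₗ[Λ] Q.T) (ha : Injective a) (b : Q.T →ₗ[Λ] P.T)
    (hb : Injective b) (M : FM k Λ) : hd P M = hd Q M :=
  (hd_congr_left (LinearEquiv.ofBijective a ⟨ha,
    (LinearMap.injective_iff_surjective_of_finrank_eq_finrank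
      (le_antisymm (dim_le_of_inj a ha) (dim_le_of_inj b hb)) (f := a.restrictScalars k)).1 ha⟩)
    M).symm

theorem Loc.gg_eq {V V' : Pres k Λ} (h : Loc V) (h' : Loc V') [Nontrivial V.C.T]
    (e : V.C.T ≃ₗ[Λ] V'.C.T) (M : FM k Λ) : gg V M = gg V' M := by
  have : Nontrivial V'.C.T := e.symm.toEquiv.nontrivial
  obtain ⟨a1, a0, h1, h0⟩ := h.inj e
  obtain ⟨b1, b0, g1, g0⟩ := h'.inj e.symm
  unfold gg
  rw [hd_eq_of_inj a1 h1 b1 g1, hd_eq_of_inj a0 h0 b0 g0]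

/-- A decomposition into indecomposable presentations. -/
def Dec (V : Pres k Λ) : Prop :=
  ∃ (J : Type) (_ : Fintype J) (Y : J → Pres k Λ), (∀ j, Loc (Y j)) ∧
    (∀ M, EZ V M → ∀ j, EZ (Y j) M) ∧
    (∀ j, ∃ q : V.C.T →ₗ[Λ] (Y j).C.T, Surjective q) ∧ Gen (fun j => (Y j).C) V.C ∧
    ∀ M, gg V M = ∑ j, gg (Y j) M

section res

variable {Y : Pres k Λ} {A1 B1 : Submodule Λ Y.P1.T} {A0 B0 : Submodule Λ Y.P0.T}
  (h1 : IsCompl A1 B1) (h0 : IsCompl A0 B0) (hA : ∀ x ∈ A1, Y.f x ∈ A0)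
  (hB : ∀ x ∈ B1, Y.f x ∈ B0)

include hB in
theorem res_surj : ∃ q : Y.C.T →ₗ[Λ] (Y.res h1 h0 hA).C.T, Surjective q := by
  refine ⟨Y.desc (M := (Y.res h1 h0 hA).C)
    ((LinearMap.range (Y.f.restrict hA)).mkQ ∘ₗ A0.projectionOnto B0 h0) ?_, ?_⟩
  · rw [LinearMap.comp_assoc, proj_comm h1 h0 hA hB]
    exact LinearMap.ext fun x => (Submodule.Quotient.mk_eq_zero _).2 ⟨_, rfl⟩
  · intro z
    obtain ⟨x, rfl⟩ := Submodule.Quotient.mk_surjective _ z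
    refine ⟨Submodule.Quotient.mk x.1, ?_⟩
    change Submodule.Quotient.mk (A0.projectionOnto B0 h0 x) = _
    rw [Submodule.projectionOnto_apply_left]

theorem res_inc : ∃ i : (Y.res h1 h0 hA).C.T →ₗ[Λ] Y.C.T,
    ∀ x ∈ A0, Submodule.Quotient.mk x ∈ LinearMap.range i :=
  ⟨(Y.res h1 h0 hA).desc (M := Y.C) ((LinearMap.range Y.f).mkQ ∘ₗ A0.subtype)
    (LinearMap.ext fun x => (Submodule.Quotient.mk_eq_zero _).2 ⟨x.1, rfl⟩),
    fun x hx => ⟨Submodule.Quotient.mk ⟨x, hx⟩, rfl⟩⟩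

include hB in
theorem Dec.glue (ha : Dec (Y.res h1 h0 hA)) (hb : Dec (Y.res h1.symm h0.symm hB)) : Dec Y := by
  obtain ⟨J, _, Z, a1, a2, a3, a4, a5⟩ := ha
  obtain ⟨J', _, Z', b1, b2, b3, b4, b5⟩ := hb
  refine ⟨J ⊕ J', inferInstance, Sum.elim Z Z', ?_, ?_, ?_, fun X hX => ?_, fun M => ?_⟩
  · rintro (j | j)
    exacts [a1 j, b1 j]
  · rintro M hM (j | j)
    exacts [a2 M (hM.res _ _ _) j, b2 M (hM.res _ _ _) j]
  · rintro (j | j)
    · obtain ⟨q, hq⟩ := res_surj h1 h0 hA hB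
      obtain ⟨q', hq'⟩ := a3 j
      exact ⟨q' ∘ₗ q, hq'.comp hq⟩
    · obtain ⟨q, hq⟩ := res_surj h1.symm h0.symm hB hA
      obtain ⟨q', hq'⟩ := b3 j
      exact ⟨q' ∘ₗ q, hq'.comp hq⟩
  · obtain ⟨i, hi⟩ := res_inc h1 h0 hA
    obtain ⟨i', hi'⟩ := res_inc h1.symm h0.symm hB
    have c1 := a4 (X.comap i) fun l ρ => by
      rintro _ ⟨x, rfl⟩
      exact hX (Sum.inl l) (i ∘ₗ ρ) ⟨x, rfl⟩
    have c2 := b4 (X.comap i') fun l ρ => by
      rintro _ ⟨x, rfl⟩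
      exact hX (Sum.inr l) (i' ∘ₗ ρ) ⟨x, rfl⟩
    refine top_le_iff.1 fun z _ => ?_
    obtain ⟨x, rfl⟩ := Submodule.Quotient.mk_surjective _ z
    obtain ⟨a, b, rfl, -⟩ := Submodule.existsUnique_add_of_isCompl h0 x
    obtain ⟨u, hu⟩ := hi a a.2
    obtain ⟨w, hw⟩ := hi' b b.2
    rw [Submodule.Quotient.mk_add, ← hu, ← hw]
    exact X.add_mem (c1.ge Submodule.mem_top :) (c2.ge Submodule.mem_top :)
  · rw [gg_res h1 h0 hA hB, a5, b5, Fintype.sum_sum_type]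
    rfl

end res

theorem dim_sub_le (M : FM k Λ) (X : Submodule Λ M.T) : (M.sub X).dim ≤ M.dim :=
  dim_le_of_inj (M := M.sub X) X.subtype Subtype.val_injective

theorem exists_dec : ∀ (n : ℕ) (V : Pres k Λ), V.P1.dim + V.P0.dim = n → Dec V := by
  intro n
  induction n using Nat.strong_induction_on with
  | _ n ih =>
  intro V hn
  by_cases hL : Loc V
  · exact ⟨Unit, inferInstance, fun _ => V, fun _ => hL, fun _ h _ => h,
      fun _ => ⟨LinearMap.id, surjective_id⟩, Gen.self (fun _ : Unit => V.C) (), fun M => by simp⟩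
  unfold Loc at hL
  push Not at hL
  obtain ⟨e1, e0, he, hnil, hbij⟩ := hL
  obtain ⟨N, hN0, hN1, hN⟩ := ((LinearMap.eventually_isCompl_ker_pow_range_pow e0).and
    ((LinearMap.eventually_isCompl_ker_pow_range_pow e1).and
      (Filter.eventually_ge_atTop 1))).exists
  have hA : ∀ x ∈ LinearMap.ker (e1 ^ N), V.f x ∈ LinearMap.ker (e0 ^ N) := fun x hx => by
    rw [LinearMap.mem_ker, ← comm_pow he, LinearMap.mem_ker.1 hx, map_zero]
  have hB : ∀ x ∈ LinearMap.range (e1 ^ N), V.f x ∈ LinearMap.range (e0 ^ N) := by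
    rintro _ ⟨x, rfl⟩
    exact ⟨_, (comm_pow he N x).symm⟩
  have hs : ∀ {P : FM k Λ} (e : Module.End Λ P.T), LinearMap.range (e ^ N) = ⊤ → Bijective e := by
    intro P e h
    obtain ⟨m, rfl⟩ : ∃ m, N = m + 1 := ⟨N - 1, by omega⟩
    rw [pow_succ'] at h
    exact bij_of_surj (Surjective.of_comp (g := ⇑(e ^ m)) (LinearMap.range_eq_top.1 h))
  refine Dec.glue hN1 hN0 hA hB (ih _ ?_ _ rfl) (ih _ ?_ _ rfl)
  · have a1 := dim_sub_le V.P1 (LinearMap.ker (e1 ^ N))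
    have a0 := dim_sub_le V.P0 (LinearMap.ker (e0 ^ N))
    change (V.P1.sub _).dim + (V.P0.sub _).dim < n
    by_cases h : LinearMap.ker (e1 ^ N) = ⊤
    · have := dim_sub_lt V.P0 (X := LinearMap.ker (e0 ^ N)) fun h' =>
        hnil ⟨N, LinearMap.ker_eq_top.1 h⟩ ⟨N, LinearMap.ker_eq_top.1 h'⟩
      omega
    · have := dim_sub_lt V.P1 h
      omega
  · have a1 := dim_sub_le V.P1 (LinearMap.range (e1 ^ N))
    have a0 := dim_sub_le V.P0 (LinearMap.range (e0 ^ N))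
    change (V.P1.sub _).dim + (V.P0.sub _).dim < n
    by_cases h : LinearMap.range (e1 ^ N) = ⊤
    · have := dim_sub_lt V.P0 (X := LinearMap.range (e0 ^ N)) fun h' => hbij (hs e1 h) (hs e0 h')
      omega
    · have := dim_sub_lt V.P1 h
      omega

end Pool.Agent.Lib.MP_146384_al
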