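import Pool.Agent.Lib.MP_146384_al.T.Unif
import Pool.Agent.Lib.MP_146384_al.T.DIJ

set_option autoImplicit false

namespace Pool.Agent.Lib.MP_146384_al

theorem many_of_tame (k : Type) [Field k] [IsAlgClosed k] (Λ : Type) [Ring Λ] [Algebra k Λ]
    [FiniteDimensional k Λ] (hT : Tame k Λ) (h : LargeBricks k Λ ∨ ManyBricks k Λ) :
    ManyBricks k Λ := by
  by_contra hc
  have hBD := BD_of_not_many hc
  obtain ⟨B, hB⟩ := rigid_bounded hT hBD
  obtain ⟨n, hn, ρ, hρ⟩ := h.resolve_right hc B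
  obtain ⟨M, hM, rfl⟩ := exists_brick_of_rep ρ hρ (by omega)
  exact absurd (brick_le_of_rigid hBD B hB M hM) (not_le.2 hn)

end Pool.Agent.Lib.MP_146384_al
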