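import Pool.Agent.Lib.MP_146384_al.R.Count
import Pool.Agent.Lib.MP_146384_al.T.Five

set_option autoImplicit false

namespace Pool.Agent.Lib.MP_146384_al

open Module Function

theorem wild_solve {k I K : Type} [Field k] [Field K] [Algebra k K] {φ : (I → k) →ₐ[k] K}
    {F : IntermediateField k K} {V W : Type} [AddCommGroup V] [Module k V] [AddCommGroup W]
    [Module k W] [FiniteDimensional k V] [FiniteDimensional k W] {T : I → V →ₗ[k] W}
    {z : I → V} (L : V →ₗ[k] k) (hT : InF φ F T) (hker : ∀ i v, T i v = 0 → L v = 0)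
    (hw : InF φ F (fun i => T i (z i))) : φ (fun i => L (z i)) ∈ F := by
  let bV := finBasis k V
  let bW := finBasis k W
  have hB : ∀ i, ∃ B : W →ₗ[k] k, ∀ v, B (T i v) = L v := fun i => by
    have h1 : L ∈ LinearMap.range (T i).dualMap := by
      rw [LinearMap.range_dualMap_eq_dualAnnihilator_ker, Submodule.mem_dualAnnihilator]
      exact hker i
    obtain ⟨B, hB⟩ := h1
    exact ⟨B, fun v => LinearMap.congr_fun hB v⟩
  choose B hB using hB
  obtain ⟨π, hπ⟩ := (Algebra.linearMap F K).exists_leftInverse_of_injective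
    (LinearMap.ker_eq_bot.2 (algebraMap F K).injective)
  have ex : ∀ (ℓ : I → V →ₗ[k] k), φ (fun i => ℓ i (z i)) =
      ∑ c, φ (fun i => ℓ i (bV c)) * φ (fun i => bV.repr (z i) c) := fun ℓ => by
    simp only [← map_mul, ← map_sum]
    refine congrArg φ (funext fun i => ?_)
    conv_lhs => rw [← bV.sum_repr (z i), map_sum]
    rw [Finset.sum_apply]
    exact Finset.sum_congr rfl fun c _ => by rw [map_smul, smul_eq_mul, mul_comm]; rfl
  have h2 : ∀ r c, φ (fun i => bW.coord r (T i (bV c))) ∈ F := fun r c =>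
    hT (bW.coord r ∘ₗ LinearMap.applyₗ (bV c))
  have h3 : ∀ r, ∑ c, φ (fun i => bW.coord r (T i (bV c))) * φ (fun i => bV.repr (z i) c) =
      ∑ c, φ (fun i => bW.coord r (T i (bV c))) * π (φ (fun i => bV.repr (z i) c)) := fun r => by
    have h4 := hw (bW.coord r)
    rw [show φ (fun i => bW.coord r (T i (z i))) = _ from ex fun i => bW.coord r ∘ₗ T i] at h4
    refine Eq.trans (congrArg Subtype.val (LinearMap.congr_fun hπ ⟨_, h4⟩)).symm ?_
    change (π (∑ c : Fin (finrank k V), _) : K) = _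
    rw [map_sum, IntermediateField.coe_sum]
    exact Finset.sum_congr rfl fun c _ => congrArg Subtype.val (π.map_smul ⟨_, h2 r c⟩ _)
  have h5 : ∀ c, φ (fun _ => L (bV c)) =
      ∑ r, φ (fun i => B i (bW r)) * φ (fun i => bW.coord r (T i (bV c))) := fun c => by
    simp only [← map_mul, ← map_sum]
    refine congrArg φ (funext fun i => ?_)
    rw [← hB i]
    conv_lhs => rw [← bW.sum_repr (T i (bV c)), map_sum]
    rw [Finset.sum_apply]
    exact Finset.sum_congr rfl fun c _ => by rw [map_smul, smul_eq_mul, mul_comm]; rfl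
  have h6 : φ (fun i => L (z i)) =
      ∑ c, φ (fun _ => L (bV c)) * π (φ (fun i => bV.repr (z i) c)) := by
    rw [ex fun _ => L]
    simp only [h5, Finset.sum_mul, mul_assoc]
    rw [Finset.sum_comm, Finset.sum_comm (s := Finset.univ (α := Fin (finrank k V)))]
    simp only [← Finset.mul_sum, h3]
  rw [h6]
  exact sum_mem fun c _ => mul_mem (InF.const (L (bV c))).mem (π _).2

theorem wild_grid {k G J : Type} [Field k] [AddCommGroup G] [Module k G] [Fintype J]
    [DecidableEq J] (ℓ : J → G →ₗ[k] k) (s : G →ₗ[k] k) (hs : ∀ g, (∀ j, ℓ j g = 0) → s g = 0)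
    (g₀ : G) (h₀ : s g₀ ≠ 0) :
    ∃ (A : Finset J) (j₀ : J) (g : G), s g ≠ 0 ∧ (∀ j ∈ A, ℓ j g = if j = j₀ then 1 else 0) ∧
      ∀ g', (∀ j ∈ A, ℓ j g' = 0) → ∀ j, ℓ j g' = 0 := by
  obtain ⟨A, hA, hmin⟩ := (wellFounded_lt (α := Finset J)).has_min
    {A | ∀ g', (∀ j ∈ A, ℓ j g' = 0) → ∀ j, ℓ j g' = 0}
    ⟨Finset.univ, fun g' h j => h j (Finset.mem_univ j)⟩
  have h1 : ∀ j₀ ∈ A, ∃ g, ∀ j ∈ A, ℓ j g = if j = j₀ then 1 else 0 := fun j₀ hj => by
    have h2 := hmin (A.erase j₀)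
    have h3 : ¬ ∀ g', (∀ j ∈ A.erase j₀, ℓ j g' = 0) → ∀ j, ℓ j g' = 0 :=
      fun h => h2 h (Finset.erase_ssubset hj)
    push Not at h3
    obtain ⟨g, h4, j1, h5⟩ := h3
    have h6 : ℓ j₀ g ≠ 0 := fun h => h5 (hA g (fun j hj' => by
      by_cases e : j = j₀
      · exact e ▸ h
      · exact h4 j (Finset.mem_erase.2 ⟨e, hj'⟩)) j1)
    refine ⟨(ℓ j₀ g)⁻¹ • g, fun j hj' => ?_⟩
    split_ifs with e
    · rw [e, map_smul, smul_eq_mul, inv_mul_cancel₀ h6]
    · rw [map_smul, h4 j (Finset.mem_erase.2 ⟨e, hj'⟩), smul_zero]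
  choose! g hg using h1
  by_contra hc
  push Not at hc
  have h7 : ∀ j ∈ A, s (g j) = 0 := fun j hj => by
    by_contra h
    obtain ⟨g', h8, j', h9⟩ := hc A j (g j) h (hg j hj)
    exact h9 (hA g' h8 j')
  have h8 := hs (g₀ - ∑ j ∈ A, ℓ j g₀ • g j) (hA _ fun i hi => by
    rw [map_sub, map_sum, Finset.sum_eq_single i (fun j hj e => by
      rw [map_smul, hg j hj i hi, if_neg e.symm, smul_zero]) (fun h => absurd hi h),
      map_smul, hg i hi i hi, if_pos rfl, smul_eq_mul, mul_one, sub_self])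
  rw [map_sub, map_sum, Finset.sum_eq_zero fun j hj => by rw [map_smul, h7 j hj, smul_zero],
    sub_zero] at h8
  exact h₀ h8

variable {k Λ : Type} [Field k] [Ring Λ] [Algebra k Λ]

theorem wild_eps [IsAlgClosed k] (T : FM k Λ) [Nontrivial T.T]
    (hloc : ∀ φ : Module.End Λ T.T, IsNilpotent φ ∨ Bijective φ) :
    ∃ ε : Module.End Λ T.T →ₗ[k] k, ε 1 = 1 ∧ (∀ a b, ε (a * b) = ε a * ε b) ∧
      (∀ a, ε a = 0 → IsNilpotent a) ∧ ∀ a, ε a ≠ 0 → Bijective a := by
  have hu : ∀ a : Module.End Λ T.T, IsUnit a ↔ Bijective a := Module.End.isUnit_iff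
  have hl : ∀ a b : Module.End Λ T.T, Bijective (a * b) → Bijective a ∧ Bijective b :=
    fun a b h => by
      have ha : Bijective a := bij_of_surj (Surjective.of_comp (g := b) h.2)
      exact ⟨ha, (Bijective.of_comp_iff' ha b).1 h⟩
  let R : Submodule k (Module.End Λ T.T) :=
    { carrier := {a | ¬ Bijective a}
      zero_mem' := fun h => not_isUnit_zero ((hu 0).2 h)
      smul_mem' := fun c a ha h => ha (hl (c • 1) a (by rwa [smul_mul_assoc, one_mul])).2
      add_mem' := fun {a b} ha hb h => by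
        obtain ⟨u, hu'⟩ := (hu _).2 h
        have h1 : IsNilpotent ((↑u⁻¹ : Module.End Λ T.T) * a) :=
          (hloc _).resolve_right fun h' => ha (hl _ _ h').2
        have h2 := (hu _).1 h1.isUnit_one_sub
        rw [← u.inv_mul, hu', ← mul_sub, add_sub_cancel_left] at h2
        exact hb (hl _ _ h2).2 }
  have h1 : (1 : Module.End Λ T.T) ∉ R := fun h => h ((hu 1).1 isUnit_one)
  obtain ⟨f, hf, hf'⟩ := Submodule.exists_le_ker_of_notMem h1
  have h2 : ∀ a : Module.End Λ T.T, a - ((f 1)⁻¹ • f) a • 1 ∈ R := fun a => by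
    obtain ⟨c, hc⟩ := Module.End.exists_eigenvalue (a.restrictScalars k)
    obtain ⟨v, hv⟩ := hc.exists_hasEigenvector
    have h3 : a - c • 1 ∈ R := fun h => hv.2 (h.1 (by
      have h4 : a v = c • v := hv.apply_eq_smul
      simp [h4]))
    have h4 : f (a - c • 1) = 0 := hf' h3
    rw [map_sub, map_smul, sub_eq_zero] at h4
    rwa [LinearMap.smul_apply, h4, smul_eq_mul, smul_eq_mul, mul_comm c, ← mul_assoc,
      inv_mul_cancel₀ hf, one_mul]
  have h5 : ((f 1)⁻¹ • f) 1 = 1 := inv_mul_cancel₀ hf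
  have h6 : ∀ a ∈ R, ((f 1)⁻¹ • f) a = 0 := fun a ha => by
    rw [LinearMap.smul_apply, show f a = 0 from hf' ha, smul_zero]
  generalize (f 1)⁻¹ • f = ε at h2 h5 h6
  refine ⟨ε, h5, fun a b => ?_, fun a ha => ?_, fun a ha => by_contra fun h => ha (h6 a h)⟩
  · have h7 := h6 ((a - ε a • 1) * b) fun h => h2 a (hl _ _ h).1
    rw [sub_mul, smul_mul_assoc, one_mul, map_sub, map_smul, sub_eq_zero] at h7
    exact h7
  · have h7 := h2 a
    rw [ha, zero_smul, sub_zero] at h7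
    exact (hloc a).resolve_right h7

theorem wild_lift {V : Pres k Λ} {M : FM k Λ} {X : Submodule Λ M.T} (hX : EZ V (M.sub X))
    (u : V.C.T →ₗ[Λ] (M.quot X).T) : ∃ h : V.C.T →ₗ[Λ] M.T, ∀ t, X.mkQ (h t) = u t := by
  obtain ⟨w, hw⟩ := Module.projective_lifting_property X.mkQ
    (u ∘ₗ (LinearMap.range V.f).mkQ) X.mkQ_surjective
  obtain ⟨σ, hσ⟩ := hX (LinearMap.codRestrict X (w ∘ₗ V.f) fun x =>
    (Submodule.Quotient.mk_eq_zero _).1 ((LinearMap.congr_fun hw _).trans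
      ((congrArg u (LinearMap.congr_fun V.mkQ_comp x)).trans (map_zero u))))
  refine ⟨V.desc (w - X.subtype ∘ₗ σ) (LinearMap.ext fun x =>
    sub_eq_zero.2 (congrArg Subtype.val (LinearMap.congr_fun hσ x)).symm), fun t => ?_⟩
  obtain ⟨x, rfl⟩ := Submodule.Quotient.mk_surjective _ t
  change X.mkQ (w x - σ x) = _
  rw [map_sub, show X.mkQ (σ x) = 0 from (Submodule.Quotient.mk_eq_zero _).2 (σ x).2, sub_zero]
  exact LinearMap.congr_fun hw x

theorem wild_fit (hT : Tame k Λ) (d : ℕ) :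
    ∃ (n : ℕ) (F : Fin n → (Λ →ₐ[k] Matrix (Fin d) (Fin d) (Polynomial k))),
      ∀ M : FM k Λ, Nontrivial M.T → M.dim = d →
        (∀ e : Module.End Λ M.T, e * e = e → e = 0 ∨ e = 1) →
        ∃ (i : Fin n) (c : k) (e : M.T ≃ₗ[k] (Fin d → k)),
          ∀ (a : Λ) m, e (a • m) = ((F i a).map (Polynomial.eval c)).mulVec (e m) := by
  obtain ⟨n, F, hF⟩ := hT d
  refine ⟨n, F, fun M _ hM h => ?_⟩
  let b : Basis (Fin d) k M.T := finBasisOfFinrankEq k M.T hM
  obtain ⟨i, c, P, hP, h1⟩ := hF (toRep M b) (hM ▸ dim_pos M) fun X hX h2 => by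
    have h3 := congrArg (Matrix.toLin b b) h2
    rw [Matrix.toLin_mul b b b] at h3
    refine (h (ofMat b b X hX) (LinearMap.ext fun m => LinearMap.congr_fun h3 m)).imp
      (fun e => (Matrix.toLin b b).injective ?_) fun e => (Matrix.toLin b b).injective ?_
    · rw [map_zero]
      exact LinearMap.ext fun m => LinearMap.congr_fun e m
    · rw [Matrix.toLin_one]
      exact LinearMap.ext fun m => LinearMap.congr_fun e m
  refine ⟨i, c, b.equivFun.trans (LinearEquiv.ofBijective (Matrix.mulVecLin P)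
    ⟨Matrix.mulVec_injective_iff_isUnit.2 hP, Matrix.mulVec_surjective_iff_isUnit.2 hP⟩),
    fun a m => ?_⟩
  change P.mulVec (b.equivFun (a • m)) =
    ((F i a).map (Polynomial.eval c)).mulVec (P.mulVec (b.equivFun m))
  rw [param_rep, Matrix.mulVec_mulVec, Matrix.mulVec_mulVec, h1]

/-- The diagonal map with weights `x`. -/
def wDel (T : FM k Λ) (x : k × k) : T.T →ₗ[Λ] (T.prod T).T :=
  (x.1 • LinearMap.id).prod (x.2 • LinearMap.id)

/-- Three fixed lines. -/
def wY (k : Type) [Field k] : Fin 3 → k × k := ![(1, 0), (0, 1), (1, 1)]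

/-- Five lines. -/
def wX (p : Fin 2 → k) : Fin 3 ⊕ Fin 2 → k × k := Sum.elim (wY k) fun r => (1, p r)

/-- Five separated radical endomorphisms. -/
structure WD (T : FM k Λ) where
  ε : Module.End Λ T.T →ₗ[k] k
  φ : Fin 3 ⊕ Fin 2 → Module.End Λ T.T
  v : Fin 3 ⊕ Fin 2 → Module.Dual k T.T
  one : ε 1 = 1
  mul : ∀ a b, ε (a * b) = ε a * ε b
  bij : ∀ a, ε a ≠ 0 → Bijective a
  off : ∀ a c, a ≠ c → ∀ t, v c (φ a t) = 0
  dia : ∀ c, ∃ t, ∀ ρ : Module.End Λ T.T, v c (ρ (φ c t)) = ε ρ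

namespace WD

variable {T : FM k Λ} (D : WD T)

/-- The relations. -/
def Φ (p : Fin 2 → k) : (FM.pi fun _ : Fin 3 ⊕ Fin 2 => T).T →ₗ[Λ] (T.prod T).T :=
  ∑ a, wDel T (wX p a) ∘ₗ D.φ a ∘ₗ LinearMap.proj a

/-- First scalar coordinate. -/
def e1 : (T.T →ₗ[Λ] (T.prod T).T) →ₗ[k] k :=
  D.ε ∘ₗ post T (M := T.prod T) (N := T) (LinearMap.fst Λ _ _)

/-- Second scalar coordinate. -/
def e2 : (T.T →ₗ[Λ] (T.prod T).T) →ₗ[k] k :=
  D.ε ∘ₗ post T (M := T.prod T) (N := T) (LinearMap.snd Λ _ _)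

theorem mem (p : Fin 2 → k) (a) (t : T.T) :
    wDel T (wX p a) (D.φ a t) ∈ LinearMap.range (D.Φ p) := by
  refine ⟨Pi.single a t, ?_⟩
  rw [Φ, LinearMap.sum_apply, Finset.sum_eq_single a (fun c _ e => by simp [e])
    (fun h => absurd (Finset.mem_univ _) h)]
  simp

theorem key (p : Fin 2 → k) (c) (h : T.T →ₗ[Λ] (T.prod T).T)
    (hh : ∀ t, h (D.φ c t) ∈ LinearMap.range (D.Φ p)) :
    (wX p c).2 * D.e1 h = (wX p c).1 * D.e2 h := by
  obtain ⟨t, ht⟩ := D.dia c
  obtain ⟨u, hu⟩ := hh t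
  have h1 : D.e1 h = D.v c (D.Φ p u).1 := by rw [hu]; exact (ht _).symm
  have h2 : D.e2 h = D.v c (D.Φ p u).2 := by rw [hu]; exact (ht _).symm
  rw [h1, h2, Φ, LinearMap.sum_apply, Prod.fst_sum, Prod.snd_sum, map_sum, map_sum,
    Finset.sum_eq_single c (fun a _ e => by simp [wDel, D.off a c e])
    (fun h => absurd (Finset.mem_univ _) h),
    Finset.sum_eq_single c (fun a _ e => by simp [wDel, D.off a c e])
    (fun h => absurd (Finset.mem_univ _) h)]
  simp [wDel]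
  ring

theorem e_comp (g : (T.prod T).T →ₗ[Λ] (T.prod T).T) (h : T.T →ₗ[Λ] (T.prod T).T) :
    D.e1 (g ∘ₗ h) = D.e1 (g ∘ₗ LinearMap.inl Λ _ _) * D.e1 h +
      D.e1 (g ∘ₗ LinearMap.inr Λ _ _) * D.e2 h ∧
    D.e2 (g ∘ₗ h) = D.e2 (g ∘ₗ LinearMap.inl Λ _ _) * D.e1 h +
      D.e2 (g ∘ₗ LinearMap.inr Λ _ _) * D.e2 h := by
  have h1 : ∀ t, g (h t) = g ((h t).1, 0) + g (0, (h t).2) := fun t => by
    rw [← map_add]; simp
  constructor <;> simp only [e1, e2, LinearMap.comp_apply, ← D.mul, ← map_add]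
  · exact congrArg D.ε (LinearMap.ext fun t => congrArg Prod.fst (h1 t))
  · exact congrArg D.ε (LinearMap.ext fun t => congrArg Prod.snd (h1 t))

theorem e_del (x : k × k) : D.e1 (wDel T x) = x.1 ∧ D.e2 (wDel T x) = x.2 := by
  have h1 : ∀ c : k, D.ε (c • 1) = c := fun c => by rw [map_smul, D.one, smul_eq_mul, mul_one]
  exact ⟨h1 x.1, h1 x.2⟩

/-- Maps preserving the first three relations. -/
def G (p : Fin 2 → k) : Submodule k ((T.prod T).T →ₗ[Λ] (T.prod T).T) where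
  carrier := {g | ∀ a t, g (wDel T (wY k a) (D.φ (Sum.inl a) t)) ∈ LinearMap.range (D.Φ p)}
  zero_mem' _ _ := zero_mem _
  add_mem' h h' a t := add_mem (h a t) (h' a t)
  smul_mem' c _ h a t := Submodule.smul_of_tower_mem _ c (h a t)

theorem scal {p : Fin 2 → k} {g : (T.prod T).T →ₗ[Λ] (T.prod T).T} (hg : g ∈ D.G p) :
    D.e2 (g ∘ₗ LinearMap.inl Λ _ _) = 0 ∧ D.e1 (g ∘ₗ LinearMap.inr Λ _ _) = 0 ∧
      D.e2 (g ∘ₗ LinearMap.inr Λ _ _) = D.e1 (g ∘ₗ LinearMap.inl Λ _ _) := by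
  have h := fun a => D.key p (Sum.inl a) (g ∘ₗ wDel T (wY k a)) (hg a)
  simp only [D.e_comp g (wDel T _), D.e_del] at h
  have h0 := h 0
  have h1 := h 1
  have h2 := h 2
  simp [wX, wY] at h0 h1 h2
  refine ⟨h0.symm, h1, ?_⟩
  rw [← h0, h1] at h2
  simpa using h2.symm

theorem bij_of {p : Fin 2 → k} {g : (T.prod T).T →ₗ[Λ] (T.prod T).T} (hg : g ∈ D.G p)
    (hs : D.e1 (g ∘ₗ LinearMap.inl Λ _ _) ≠ 0) : Bijective g := by
  obtain ⟨h1, h2, h3⟩ := D.scal hg
  obtain ⟨u, hu⟩ := (Module.End.isUnit_iff _).2 (D.bij _ hs)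
  have h4 := D.bij (post T (M := T.prod T) (N := T) (LinearMap.snd Λ _ _) (g ∘ₗ LinearMap.inr Λ _ _) -
    post T (M := T.prod T) (N := T) (LinearMap.snd Λ _ _) (g ∘ₗ LinearMap.inl Λ _ _) * ↑u⁻¹ *
    post T (M := T.prod T) (N := T) (LinearMap.fst Λ _ _) (g ∘ₗ LinearMap.inr Λ _ _)) (by
      rw [map_sub, D.mul]
      change D.e2 _ - _ * D.e1 _ ≠ 0
      rwa [h2, h3, mul_zero, sub_zero])
  have h5 : Injective g := (injective_iff_map_eq_zero g).2 fun t ht => by
    have h6 : g (t.1, 0) + g (0, t.2) = 0 := by rw [← map_add]; simpa using ht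
    have h7 : (↑u⁻¹ : Module.End Λ T.T) (g (0, t.2)).1 = -t.1 := by
      rw [eq_neg_of_add_eq_zero_right (congrArg Prod.fst h6), map_neg, neg_inj]
      exact (congrArg _ (LinearMap.congr_fun hu t.1).symm).trans
        (LinearMap.congr_fun u.inv_mul t.1)
    have h8 : t.2 = 0 := h4.1 (by
      change (g (0, t.2)).2 - (g ((↑u⁻¹ : Module.End Λ T.T) (g (0, t.2)).1, 0)).2 = _
      rw [h7, map_zero, eq_neg_of_add_eq_zero_right (congrArg Prod.snd h6), sub_eq_zero,
        ← Prod.snd_neg, ← map_neg]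
      simp)
    rw [h8, Prod.mk_zero_zero, map_zero] at h7
    refine Prod.ext ?_ h8
    simpa using h7
  exact ⟨h5, (LinearMap.injective_iff_surjective (f := g.restrictScalars k)).1 h5⟩

theorem zero_of {p : Fin 2 → k} {g : (T.prod T).T →ₗ[Λ] (T.prod T).T}
    (hg : ∀ t, g t ∈ LinearMap.range (D.Φ p)) : D.e1 (g ∘ₗ LinearMap.inl Λ _ _) = 0 := by
  simpa [wX, wY] using D.key p (Sum.inl 1) (g ∘ₗ LinearMap.inl Λ _ _) fun t => hg _

/-- The normal form of the quotient map. -/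
def Cell [FiniteDimensional k Λ] {d : ℕ} (F : Λ →ₐ[k] Matrix (Fin d) (Fin d) (Polynomial k))
    (q : Finset (Fin (finrank k ((T.prod T).T →ₗ[k] Fin d → k))) ×
      Fin (finrank k ((T.prod T).T →ₗ[k] Fin d → k))) (p : Fin 2 → k) : Prop :=
  ∃ (c : k) (π : (T.prod T).T →ₗ[k] Fin d → k),
    (∀ s b, π (finBasis k Λ s • b) =
      ((F (finBasis k Λ s)).map (Polynomial.eval c)).mulVec (π b)) ∧
    (∀ a t, π (wDel T (wY k a) (D.φ (Sum.inl a) t)) = 0) ∧
    (∀ π' : (T.prod T).T →ₗ[k] Fin d → k, (∀ s b, π' (finBasis k Λ s • b) =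
      ((F (finBasis k Λ s)).map (Polynomial.eval c)).mulVec (π' b)) →
      (∀ a t, π' (wDel T (wY k a) (D.φ (Sum.inl a) t)) = 0) →
      (∀ j ∈ q.1, (finBasis k _).coord j π' = 0) → π' = 0) ∧
    (∀ j ∈ q.1, (finBasis k _).coord j π = if j = q.2 then 1 else 0) ∧
    ∀ r, (∃ z : T.T →ₗ[Λ] (T.prod T).T, (∀ t, π (z (D.φ (Sum.inr r) t)) = 0) ∧ D.e1 z = 1) ∧
      ∀ h : T.T →ₗ[Λ] (T.prod T).T, (∀ t, π (h (D.φ (Sum.inr r) t)) = 0) → D.e2 h = p r * D.e1 h

theorem card_cell [FiniteDimensional k Λ] {d : ℕ}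
    (F : Λ →ₐ[k] Matrix (Fin d) (Fin d) (Polynomial k)) (q) :
    ¬ ZD (fun p : Fin 2 → k => p) {p | D.Cell F q p} := fun hZ => by
  classical
  choose c π h1 h2 h3 h4 h5 using fun i : {p | D.Cell F q p} => i.2
  choose z hz hz' using fun i r => (h5 i r).1
  let ℓ := (finBasis k ((T.prod T).T →ₗ[k] Fin d → k)).coord
  have key := card_le_of_dense (σ := Unit) (fun i : {p | D.Cell F q p} => i.1)
    (fun P hP => hZ P fun g hg => hP ⟨g, hg⟩) (fun _ => c) ?_
  · simp at key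
  intro K _ _ φ E hE r
  have hp : ∀ P : Polynomial k, φ (fun i => P.eval (c i)) ∈ E := fun P => by
    induction P using Polynomial.induction_on' with
    | add p q hp hq => simpa using ((InF.of_mem hp).add (InF.of_mem hq)).mem
    | monomial n a =>
      rw [show (fun i => (Polynomial.monomial n a).eval (c i)) = a • c ^ n from
        funext fun i => Polynomial.eval_monomial, map_smul, map_pow]
      exact E.smul_mem (pow_mem (hE ()) n)
  let T1 : {p | D.Cell F q p} → ((T.prod T).T →ₗ[k] Fin d → k) →ₗ[k]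
      (((Fin (finrank k Λ) → (T.prod T).T →ₗ[k] Fin d → k) × (Fin 3 → T.T →ₗ[k] Fin d → k)) ×
        (q.1 → k)) := fun i =>
    ((LinearMap.pi fun s => LinearMap.lcomp k _ (Algebra.lsmul k k (T.prod T).T (finBasis k Λ s)) -
      LinearMap.llcomp k _ _ _ ((F (finBasis k Λ s)).map (Polynomial.eval (c i))).mulVecLin).prod
      (LinearMap.pi fun a => LinearMap.lcomp k _
        ((wDel T (wY k a) ∘ₗ D.φ (Sum.inl a)).restrictScalars k))).prod
      (LinearMap.pi fun j => ℓ j)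
  have hπ : InF φ E π := by
    refine InF.solve (T := T1) (InF.hom fun v => InF.prod (InF.prod (InF.pi fun s =>
      InF.sub (InF.const _) (InF.hom fun b => InF.pi fun r => ?_)) (InF.const _)) (InF.const _))
      (fun i => ?_) ?_
    · have h6 : InF φ E fun i j => Polynomial.eval (c i) (F (finBasis k Λ s) r j) :=
        InF.pi fun j => InF.of_mem (hp _)
      exact (h6.map (Fintype.linearCombination k (v b))).congr fun i => rfl
    · rw [← LinearMap.ker_eq_bot, LinearMap.ker_eq_bot']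
      intro v hv
      exact h3 i v (fun s b => sub_eq_zero.1
        (LinearMap.congr_fun (congrFun (congrArg (·.1.1) hv) s) b))
        (fun a t => LinearMap.congr_fun (congrFun (congrArg (·.1.2) hv) a) t)
        fun j hj => congrFun (congrArg Prod.snd hv) ⟨j, hj⟩
    · exact InF.prod (InF.prod ((InF.const 0).congr fun i => funext fun s => LinearMap.ext fun b =>
        sub_eq_zero.2 (h1 i s b)) ((InF.const 0).congr fun i => funext fun a =>
        LinearMap.ext (h2 i a))) (InF.pi fun j =>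
        (InF.const (if j.1 = q.2 then 1 else 0 : k)).congr fun i => h4 i j j.2)
  let T2 : {p | D.Cell F q p} → (T.T →ₗ[Λ] (T.prod T).T) →ₗ[k] ((T.T →ₗ[k] Fin d → k) × k) :=
    fun i => (LinearMap.llcomp k _ _ _ (π i) ∘ₗ LinearMap.restrictScalarsₗ k Λ _ _ k ∘ₗ
      pre (A := T) (B := T) (D.φ (Sum.inr r)) (T.prod T)).prod D.e1
  have h7 := wild_solve (T := T2) (z := fun i => z i r) D.e2 (InF.hom fun v => InF.prod
    (hπ.map (LinearMap.lcomp k _ ((v ∘ₗ D.φ (Sum.inr r)).restrictScalars k))) (InF.const _))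
    (fun i v hv => by
      rw [(h5 i r).2 v fun t => LinearMap.congr_fun (congrArg Prod.fst hv) t,
        show D.e1 v = 0 from congrArg Prod.snd hv, mul_zero])
    (InF.prod ((InF.const 0).congr fun i => LinearMap.ext (hz i r))
      ((InF.const 1).congr fun i => hz' i r))
  rwa [show (fun i => D.e2 (z i r)) = fun i : {p | D.Cell F q p} => i.1 r from
    funext fun i => by rw [(h5 i r).2 _ (hz i r), hz', mul_one]] at h7

/-- Maps to the quotient lift. -/
def Lf (p : Fin 2 → k) : Prop :=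
  ∀ u : (T.prod T).T →ₗ[Λ] (cok (D.Φ p)).T, ∃ g : (T.prod T).T →ₗ[Λ] (T.prod T).T,
    ∀ t, (LinearMap.range (D.Φ p)).mkQ (g t) = u t

variable {p : Fin 2 → k} (hl : D.Lf p)
include hl

theorem idem (e : Module.End Λ (cok (D.Φ p)).T) (he : e * e = e) : e = 0 ∨ e = 1 := by
  have h1 : ∀ (e : Module.End Λ (cok (D.Φ p)).T) (g : (T.prod T).T →ₗ[Λ] (T.prod T).T),
      (∀ t, (LinearMap.range (D.Φ p)).mkQ (g t) = e ((LinearMap.range (D.Φ p)).mkQ t)) →
      D.e1 (g ∘ₗ LinearMap.inl Λ _ _) ≠ 0 → e * e = e → e = 1 := fun e g hg hs he => by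
    have h2 : g ∈ D.G p := fun a t => (Submodule.Quotient.mk_eq_zero _).1 ((hg _).trans
      ((congrArg e ((Submodule.Quotient.mk_eq_zero _).2 (D.mem p (Sum.inl a) t))).trans
        (map_zero e)))
    refine LinearMap.ext fun y => ?_
    obtain ⟨y, rfl⟩ := Submodule.mkQ_surjective _ y
    obtain ⟨y, rfl⟩ := (D.bij_of h2 hs).2 y
    rw [hg]
    exact LinearMap.congr_fun he _
  obtain ⟨g, hg⟩ := hl (e ∘ₗ (LinearMap.range (D.Φ p)).mkQ)
  by_cases hs : D.e1 (g ∘ₗ LinearMap.inl Λ _ _) = 0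
  · refine Or.inl (sub_eq_self.1 (h1 (1 - e) (LinearMap.id - g) (fun t => ?_) ?_
      (IsIdempotentElem.one_sub he)))
    · rw [LinearMap.sub_apply, map_sub, hg]; rfl
    · rw [LinearMap.sub_comp, map_sub, hs, sub_zero]
      exact D.one ▸ one_ne_zero
  · exact Or.inr (h1 e g hg hs he)

theorem exists_cell [FiniteDimensional k Λ] {d : ℕ}
    (F : Λ →ₐ[k] Matrix (Fin d) (Fin d) (Polynomial k)) (c : k)
    (e : (cok (D.Φ p)).T ≃ₗ[k] (Fin d → k))
    (he : ∀ (a : Λ) m, e (a • m) = ((F a).map (Polynomial.eval c)).mulVec (e m)) :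
    ∃ q, D.Cell F q p := by
  classical
  let ψ : ((T.prod T).T →ₗ[Λ] (T.prod T).T) →ₗ[k] ((T.prod T).T →ₗ[k] Fin d → k) :=
    LinearMap.llcomp k _ _ _ e.toLinearMap ∘ₗ LinearMap.restrictScalarsₗ k Λ _ _ k ∘ₗ
      post (T.prod T) (M := T.prod T) (N := cok (D.Φ p)) (LinearMap.range (D.Φ p)).mkQ
  have hψ : ∀ g t, ψ g t = e ((LinearMap.range (D.Φ p)).mkQ (g t)) := fun _ _ => rfl
  have hψ0 : ∀ g t, ψ g t = 0 ↔ g t ∈ LinearMap.range (D.Φ p) := fun g t => by
    rw [hψ, e.map_eq_zero_iff]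
    exact Submodule.Quotient.mk_eq_zero _
  let ℓ := fun j => (finBasis k ((T.prod T).T →ₗ[k] Fin d → k)).coord j ∘ₗ ψ ∘ₗ (D.G p).subtype
  let σ : D.G p →ₗ[k] k :=
    D.e1 ∘ₗ pre (A := T) (B := T.prod T) (LinearMap.inl Λ _ _) (T.prod T) ∘ₗ (D.G p).subtype
  have hℓ : ∀ g : D.G p, (∀ j, ℓ j g = 0) → ψ g.1 = 0 := fun g hg =>
    (finBasis k _).forall_coord_eq_zero_iff.1 hg
  have hσ : σ ⟨LinearMap.id, fun a t => D.mem p (Sum.inl a) t⟩ ≠ 0 := D.one.trans_ne one_ne_zero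
  obtain ⟨A, j₀, ⟨g, hg⟩, hs, h1, h2⟩ := wild_grid ℓ σ
    (fun g hg => D.zero_of fun t => (hψ0 _ t).1 (LinearMap.congr_fun (hℓ g hg) t)) _ hσ
  change D.e1 (g ∘ₗ LinearMap.inl Λ _ _) ≠ 0 at hs
  obtain ⟨h3, h4, h5⟩ := D.scal hg
  refine ⟨(A, j₀), c, ψ g, fun s b => by rw [hψ, hψ, map_smul, map_smul, he],
    fun a t => (hψ0 _ _).2 (hg a t), fun π' h6 h7 h8 => ?_, h1, fun r => ⟨?_, fun h hh => ?_⟩⟩
  · let v : (T.prod T).T →ₗ[Λ] (cok (D.Φ p)).T :=
      { toFun := fun b => e.symm (π' b)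
        map_add' := fun a b => by rw [map_add, map_add]
        map_smul' := fun a b => by
          rw [RingHom.id_apply, ← (finBasis k Λ).sum_repr a, Finset.sum_smul, Finset.sum_smul,
            map_sum, map_sum]
          refine Finset.sum_congr rfl fun s _ => ?_
          rw [smul_assoc, smul_assoc, map_smul, map_smul, h6]
          congr 1
          rw [LinearEquiv.symm_apply_eq, he, LinearEquiv.apply_symm_apply] }
    obtain ⟨g', hg'⟩ := hl v
    have h9 : ψ g' = π' := LinearMap.ext fun b => by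
      rw [hψ, hg']; exact e.apply_symm_apply _
    subst h9
    exact hℓ ⟨g', fun a t => (hψ0 _ _).1 (h7 a t)⟩ (h2 _ h8)
  · let u := LinearEquiv.ofBijective g (D.bij_of hg hs)
    let z := u.symm.toLinearMap ∘ₗ wDel T (wX p (Sum.inr r))
    have hz : g ∘ₗ z = wDel T (wX p (Sum.inr r)) := LinearMap.ext fun t => u.apply_symm_apply _
    have h6 := (D.e_comp g z).1
    rw [hz, (D.e_del _).1, h4, zero_mul, add_zero] at h6
    refine ⟨D.e1 (g ∘ₗ LinearMap.inl Λ _ _) • z, fun t => ?_, (map_smul D.e1 _ z).trans h6.symm⟩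
    rw [LinearMap.smul_apply, map_smul, (hψ0 _ _).2, smul_zero]
    rw [← LinearMap.comp_apply, hz]
    exact D.mem p (Sum.inr r) t
  · have h6 := D.key p (Sum.inr r) (g ∘ₗ h) fun t => (hψ0 _ _).1 (hh t)
    rw [(D.e_comp g h).1, (D.e_comp g h).2, h3, h4, h5] at h6
    refine mul_left_cancel₀ hs ?_
    simp only [wX, Sum.elim_inr] at h6
    linear_combination -h6

end WD

theorem WD.lift {V : Pres k Λ} (D : WD V.C) (hV : EZ V V.C) (p : Fin 2 → k) : D.Lf p := fun u => by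
  have h1 : EZ V (FM.pi fun _ : Fin 3 ⊕ Fin 2 => V.C) := fun ψ => by
    choose π hπ using fun a => hV (LinearMap.proj a ∘ₗ ψ)
    exact ⟨LinearMap.pi π, LinearMap.ext fun x => funext fun a => LinearMap.congr_fun (hπ a) x⟩
  have h2 : EZ V ((V.C.prod V.C).sub (LinearMap.range (D.Φ p))) :=
    h1.of_surj (D.Φ p).rangeRestrict (D.Φ p).surjective_rangeRestrict
  obtain ⟨a, ha⟩ := wild_lift h2 (u ∘ₗ LinearMap.inl Λ _ _)
  obtain ⟨b, hb⟩ := wild_lift h2 (u ∘ₗ LinearMap.inr Λ _ _)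
  refine ⟨a.coprod b, fun t => ?_⟩
  rw [LinearMap.coprod_apply, map_add, ha, hb]
  exact (map_add u _ _).symm.trans (congrArg u (by simp))

theorem end_le [IsAlgClosed k] [FiniteDimensional k Λ] (hT : Tame k Λ) (V : Pres k Λ)
    (hV : EZ V V.C) (hloc : ∀ φ : Module.End Λ V.C.T, IsNilpotent φ ∨ Bijective φ) :
    hd V.C V.C ≤ 4 * V.C.dim + 1 := by
  by_cases hn : Subsingleton V.C.T
  · rw [hd_of_subsingleton]; omega
  have : Nontrivial V.C.T := not_subsingleton_iff_nontrivial.1 hn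
  obtain ⟨ε, h1, h2, h3, h4⟩ := wild_eps V.C hloc
  by_contra hc
  let ρ := LinearMap.restrictScalarsₗ k Λ V.C.T V.C.T k
  have h5 := ε.finrank_range_add_finrank_ker
  have h6 : finrank k (LinearMap.range ε) ≤ 1 :=
    (Submodule.finrank_le _).trans (finrank_self k).le
  have h7 : finrank k ((LinearMap.ker ε).map ρ) = finrank k (LinearMap.ker ε) :=
    (Submodule.equivMapOfInjective ρ (LinearMap.restrictScalars_injective k) _).finrank_eq.symm
  obtain ⟨φ, v, hφ, h8, h9, h10⟩ := exists_five ((LinearMap.ker ε).map ρ) (by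
      rintro _ ⟨a, ha, rfl⟩ _ ⟨b, -, rfl⟩
      exact ⟨a * b, (h2 a b).trans (by rw [show ε a = 0 from ha, zero_mul]), rfl⟩) (by
      rintro _ ⟨a, ha, rfl⟩
      obtain ⟨n, hn⟩ := h3 a ha
      refine ⟨n, LinearMap.ext fun t => ?_⟩
      have := LinearMap.congr_fun hn t
      rw [Module.End.pow_apply] at this ⊢
      exact this) (by
      rw [h7]
      change 4 * V.C.dim < _
      change ¬ finrank k (Module.End Λ V.C.T) ≤ _ at hc
      omega)
  choose φ' hφ0 hφ' using hφ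
  let D : WD V.C :=
    { ε := ε
      φ := fun a => φ' (finSumFinEquiv a)
      v := fun a => v (finSumFinEquiv a)
      one := h1
      mul := h2
      bij := h4
      off := fun a c h t => by
        have := h8 _ _ (finSumFinEquiv.injective.ne h) t
        rwa [← hφ'] at this
      dia := fun c => by
        obtain ⟨t, ht⟩ := h9 (finSumFinEquiv c)
        refine ⟨t, fun a => ?_⟩
        have := h10 (finSumFinEquiv c) _ ⟨a - ε a • 1, show ε _ = 0 by simp [h1], rfl⟩ t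
        rw [← hφ'] at this ht
        change v _ (a _ - ε a • _) = 0 at this
        rw [map_sub, map_smul, sub_eq_zero] at this
        exact this.trans ((congrArg _ ht).trans (mul_one _)) }
  have hZ : ZD (fun p : Fin 2 → k => p) Set.univ := fun P hP =>
    MvPolynomial.funext fun x => (hP x trivial).trans (map_zero _).symm
  obtain ⟨d, -, hd'⟩ := hZ.cover (Set.finite_Iic (V.C.prod V.C).dim)
    (fun d => {p | (cok (D.Φ p)).dim = d}) fun p _ =>
      ⟨_, dim_le_of_surj (M := V.C.prod V.C) (N := cok (D.Φ p)) _ (Submodule.mkQ_surjective _), rfl⟩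
  obtain ⟨n, F, hF⟩ := wild_fit hT d
  obtain ⟨q, -, hq⟩ := hd'.cover Set.finite_univ (fun q : Fin n × _ => {p | D.Cell (F q.1) q.2 p})
    fun p hp => by
      obtain ⟨i, c, e, he⟩ := hF (cok (D.Φ p)) (Submodule.Quotient.nontrivial_iff.2 fun h =>
        one_ne_zero (h1.symm.trans (D.zero_of (p := p) (g := LinearMap.id) fun t =>
          h ▸ Submodule.mem_top))) hp (D.idem (D.lift hV p))
      obtain ⟨q, hq⟩ := D.exists_cell (D.lift hV p) (F i) c e he
      exact ⟨(i, q), trivial, hq⟩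
  exact D.card_cell _ _ hq

end Pool.Agent.Lib.MP_146384_al
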