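import Pool.Agent.Lib.MP_146384_al.R.Main
import Pool.Agent.Lib.MP_146384_al.T.DrozdLin
import Pool.Agent.Lib.MP_146384_al.T.Wild

set_option autoImplicit false

namespace Pool.Agent.Lib.MP_146384_al

open Module Function

variable {k Λ : Type} [Field k] [Ring Λ] [Algebra k Λ]

/-- The common kernel of all maps to `T`. -/
def rej (T P : FM k Λ) : Submodule Λ P.T := ⨅ ψ : P.T →ₗ[Λ] T.T, LinearMap.ker ψ

theorem mem_rej {T P : FM k Λ} {x : P.T} : x ∈ rej T P ↔ ∀ ψ : P.T →ₗ[Λ] T.T, ψ x = 0 :=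
  Submodule.mem_iInf _

/-- The largest quotient cogenerated by `T`. -/
abbrev red (T P : FM k Λ) : FM k Λ := P.quot (rej T P)

/-- Functoriality of `red`. -/
def redMap (T : FM k Λ) {P Q : FM k Λ} (f : P.T →ₗ[Λ] Q.T) : (red T P).T →ₗ[Λ] (red T Q).T :=
  Submodule.mapQ _ _ f fun _ hx => mem_rej.2 fun ψ => mem_rej.1 hx (ψ ∘ₗ f)

theorem redMap_mk (T : FM k Λ) {P Q : FM k Λ} (f : P.T →ₗ[Λ] Q.T) (x : P.T) :
    redMap T f (Submodule.Quotient.mk x) = Submodule.Quotient.mk (f x) := rfl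

theorem red_inj {V : Pres k Λ} {T : FM k Λ} (h : EZ V T) : Injective (redMap T V.f) := by
  rw [injective_iff_map_eq_zero]
  intro x hx
  obtain ⟨y, rfl⟩ := Submodule.Quotient.mk_surjective _ x
  refine (Submodule.Quotient.mk_eq_zero _).2 (mem_rej.2 fun ψ => ?_)
  obtain ⟨π, rfl⟩ := h ψ
  exact mem_rej.1 ((Submodule.Quotient.mk_eq_zero _).1 hx) π

theorem red_cok (V : Pres k Λ) : Nonempty ((cok (redMap V.C V.f)).T ≃ₗ[Λ] V.C.T) := by
  let q : (red V.C V.P0).T →ₗ[Λ] V.C.T :=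
    Submodule.liftQ _ (LinearMap.range V.f).mkQ fun x hx => mem_rej.1 hx _
  have hq : Surjective q := fun z => by
    obtain ⟨y, rfl⟩ := Submodule.Quotient.mk_surjective _ z
    exact ⟨Submodule.Quotient.mk y, rfl⟩
  refine ⟨(Submodule.quotEquivOfEq _ _ ?_).trans (q.quotKerEquivOfSurjective hq)⟩
  ext x
  obtain ⟨y, rfl⟩ := Submodule.Quotient.mk_surjective _ x
  constructor
  · rintro ⟨z, hz⟩
    obtain ⟨w, rfl⟩ := Submodule.Quotient.mk_surjective _ z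
    rw [LinearMap.mem_ker, ← hz]
    exact (Submodule.Quotient.mk_eq_zero _).2 ⟨w, rfl⟩
  · intro h
    obtain ⟨w, rfl⟩ := (Submodule.Quotient.mk_eq_zero (LinearMap.range V.f)).1 h
    exact ⟨Submodule.Quotient.mk w, rfl⟩

theorem red_lifts (T P : FM k Λ) [Module.Projective Λ P.T] {P1 P0 : FM k Λ}
    (f : (red T P1).T →ₗ[Λ] (red T P0).T) : Lifts (red T P) f := fun g => by
  obtain ⟨h, hh⟩ := Module.projective_lifting_property
    ((LinearMap.range f).mkQ ∘ₗ (rej T P0).mkQ) (g ∘ₗ (rej T P).mkQ)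
    ((Submodule.mkQ_surjective _).comp (Submodule.mkQ_surjective _))
  refine ⟨redMap T h, LinearMap.ext fun x => ?_⟩
  obtain ⟨y, rfl⟩ := Submodule.Quotient.mk_surjective _ x
  exact LinearMap.congr_fun hh y

theorem inAdd_reg [FiniteDimensional k Λ] (P : FM k Λ) [Module.Projective Λ P.T] :
    InAdd (FM.reg k Λ) P := by
  let b := finBasis k P.T
  obtain ⟨ι, hι⟩ := Module.projective_lifting_property (Fintype.linearCombination Λ b)
    LinearMap.id fun x => ⟨fun i => algebraMap k Λ (b.repr x i), by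
      simp only [Fintype.linearCombination_apply, algebraMap_smul]
      exact b.sum_repr x⟩
  exact ⟨_, ι, _, hι⟩

theorem hd_le_mul (M N : FM k Λ) : hd M N ≤ M.dim * N.dim := by
  rw [← finrank_linearMap k k]
  exact LinearMap.finrank_le_finrank_of_injective (f := LinearMap.restrictScalarsₗ k Λ M.T N.T k)
    (LinearMap.restrictScalars_injective k)

theorem finrank_phi_le [FiniteDimensional k Λ] (Z Y : FM k Λ) :
    finrank k (Phi Z Y) ≤ Y.dim + finrank k Λ * (Z.dim * Y.dim) := by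
  have h1 : finrank k (Phi Z Y) = Y.dim +
      finrank k ((Λ →ₗ[k] Z.T →ₗ[k] Y.T) ⧸ LinearMap.range (del Z Y)) := finrank_prod
  have h2 := (LinearMap.range (del Z Y)).finrank_quotient_add_finrank
  rw [finrank_linearMap, finrank_linearMap] at h2
  unfold FM.dim at *
  omega

variable {ι : Type} [Fintype ι]

theorem Cls.red {G : ι → FM k Λ} {P : FM k Λ} {a : ι → ℕ} (h : Cls G P a) (T : FM k Λ) :
    Cls (fun j => red T (G j)) (red T P) a := by
  obtain ⟨I, _, c, ⟨e⟩, hc⟩ := h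
  refine ⟨I, inferInstance, c, ⟨LinearEquiv.ofBijective
    (LinearMap.pi fun i => redMap T (pr (X := fun i => G (c i)) e i)) ⟨?_, fun z => ?_⟩⟩, hc⟩
  · rw [injective_iff_map_eq_zero]
    intro x hx
    obtain ⟨y, rfl⟩ := Submodule.Quotient.mk_surjective _ x
    refine (Submodule.Quotient.mk_eq_zero _).2 (mem_rej.2 fun ψ => ?_)
    rw [← LinearMap.id_apply (R := Λ) y, ← sum_inc_pr (X := fun i => G (c i)) e,
      LinearMap.sum_apply, map_sum]
    exact Finset.sum_eq_zero fun i _ =>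
      mem_rej.1 ((Submodule.Quotient.mk_eq_zero _).1 (congrFun hx i)) (ψ ∘ₗ inc e i)
  · choose w hw using fun i => Submodule.Quotient.mk_surjective _ (z i)
    refine ⟨Submodule.Quotient.mk (e.symm w), funext fun i => ?_⟩
    rw [← hw]
    exact congrArg Submodule.Quotient.mk (congrFun (e.apply_symm_apply w) i)

theorem drozd_hyp [Infinite k] [FiniteDimensional k Λ] (hT : Tame k Λ) (hBD : BD k Λ)
    (Y : FM k Λ) (G G' : ι → FM k Λ)
    (hl : ∀ {Y1 Y0 : FM k Λ} {f : Y1.T →ₗ[Λ] Y0.T}, Lifts Y f → ∀ p, Lifts (G' p) f)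
    (v : (ι → ℕ) × (ι → ℕ))
    (hv : ∀ t ∈ Tst Y G G', ∑ i, v.1 i * t.1 i ≤ ∑ i, v.2 i * t.2 i) :
    (0 < wt (fun p => ((G p).dim : ℤ)) (fun p => (G' p).dim) v ∧ 0 < frm G G' v v) ∨
      (wt (fun p => ((G p).dim : ℤ)) (fun p => (G' p).dim) v = 0 ∧
        ∀ w, frm G G' v w = 0 ∧ frm G G' w v = 0) := by
  obtain ⟨Y1, h1⟩ := exists_cls G v.1
  obtain ⟨Y0, h0⟩ := exists_cls G' v.2
  obtain ⟨l, hl0, f, hf⟩ := good_of_mon h1 h0 hv
  have k1 : Cls G _ (l • v).1 := h1.pow l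
  have k0 : Cls G' _ (l • v).2 := h0.pow l
  have hl1 : (0 : ℤ) < l := by exact_mod_cast hl0
  have e1 := wt_dim k1 k0
  rw [map_nsmul, nsmul_eq_mul] at e1
  rcases (dim_le_of_inj f hf.1).lt_or_eq with hlt | heq
  · have e2 := frm_eq k1 k0 k1 k0
    have e3 := count hT hBD f ⟨hf.1, k0.lifts (hl hf.2)⟩ hlt
    rw [map_nsmul, map_nsmul, AddMonoidHom.nsmul_apply, nsmul_eq_mul, nsmul_eq_mul] at e2
    refine Or.inl ⟨(mul_pos_iff_of_pos_left hl1).1 (by omega), ?_⟩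
    exact (mul_pos_iff_of_pos_left hl1).1 ((mul_pos_iff_of_pos_left hl1).1 (by omega))
  · have hs : Surjective f :=
      (LinearMap.injective_iff_surjective_of_finrank_eq_finrank heq
        (f := f.restrictScalars k)).1 hf.1
    let E := LinearEquiv.ofBijective f ⟨hf.1, hs⟩
    refine Or.inr ⟨(mul_eq_zero_iff_left hl1.ne').1 (by omega), fun w => ?_⟩
    obtain ⟨X1, j1⟩ := exists_cls G w.1
    obtain ⟨X0, j0⟩ := exists_cls G' w.2
    have e2 := frm_eq k1 k0 j1 j0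
    have e3 := frm_eq j1 j0 k1 k0
    rw [map_nsmul, AddMonoidHom.nsmul_apply, nsmul_eq_mul, hd_congr_left E X0,
      hd_congr_left E X1] at e2
    rw [map_nsmul, nsmul_eq_mul, hd_congr X0 E, hd_congr X1 E] at e3
    exact ⟨(mul_eq_zero_iff_left hl1.ne').1 (by omega),
      (mul_eq_zero_iff_left hl1.ne').1 (by omega)⟩

/-- The bilinear form of a matrix. -/
def frmN (h : ι → ι → ℕ) : ((ι → ℕ) × (ι → ℕ)) →+ ((ι → ℕ) × (ι → ℕ)) →+ ℤ :=
  AddMonoidHom.mk' (fun v =>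
    wt (fun q => wt (fun p => h p q) (fun p => h p q) v)
      (fun q => wt (fun p => h p q) (fun p => h p q) v)) fun v w => by
    refine AddMonoidHom.ext fun z => ?_
    simp only [map_add, AddMonoidHom.add_apply]
    simp only [wt_apply (v := z), mul_add, Finset.sum_add_distrib]
    ring

theorem uniform (ι : Type) [Fintype ι] (N : ℕ) : ∃ B : ℤ,
    ∀ (h : ι → ι → ℕ) (d : ι → ℕ) (T : Set ((ι → ℕ) × (ι → ℕ))), (∀ p q, h p q ≤ N) →
      (∀ p, d p ≤ N) → (∀ t ∈ T, (∀ p, t.1 p ≤ N) ∧ ∀ p, t.2 p ≤ N) →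
      (∀ v : (ι → ℕ) × (ι → ℕ), (∀ t ∈ T, ∑ i, v.1 i * t.1 i ≤ ∑ i, v.2 i * t.2 i) →
        (0 < wt (fun p => (d p : ℤ)) (fun p => d p) v ∧ 0 < frmN h v v) ∨
          (wt (fun p => (d p : ℤ)) (fun p => d p) v = 0 ∧
            ∀ w, frmN h v w = 0 ∧ frmN h w v = 0)) →
      ∀ v : (ι → ℕ) × (ι → ℕ), (∀ t ∈ T, ∑ i, v.1 i * t.1 i ≤ ∑ i, v.2 i * t.2 i) →
        frmN h v v ≤ 4 * wt (fun p => (d p : ℤ)) (fun p => d p) v + 1 →
          wt (fun p => (d p : ℤ)) (fun p => d p) v ≤ B := by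
  have key : ∀ δ : (ι → ι → ℕ) × (ι → ℕ) × Set ((ι → ℕ) × (ι → ℕ)), ∃ B : ℤ, δ.2.2.Finite →
      (∀ v : (ι → ℕ) × (ι → ℕ), (∀ t ∈ δ.2.2, ∑ i, v.1 i * t.1 i ≤ ∑ i, v.2 i * t.2 i) →
        (0 < wt (fun p => (δ.2.1 p : ℤ)) (fun p => δ.2.1 p) v ∧ 0 < frmN δ.1 v v) ∨
          (wt (fun p => (δ.2.1 p : ℤ)) (fun p => δ.2.1 p) v = 0 ∧
            ∀ w, frmN δ.1 v w = 0 ∧ frmN δ.1 w v = 0)) →
      ∀ v : (ι → ℕ) × (ι → ℕ), (∀ t ∈ δ.2.2, ∑ i, v.1 i * t.1 i ≤ ∑ i, v.2 i * t.2 i) →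
        frmN δ.1 v v ≤ 4 * wt (fun p => (δ.2.1 p : ℤ)) (fun p => δ.2.1 p) v + 1 →
          wt (fun p => (δ.2.1 p : ℤ)) (fun p => δ.2.1 p) v ≤ B := fun δ => by
    by_contra hc
    push Not at hc
    obtain ⟨h1, h2, -⟩ := hc 0
    obtain ⟨B, hB⟩ := drozd_lin δ.2.2 h1 _ _ h2
    obtain ⟨-, -, v, a, b, c⟩ := hc B
    exact absurd (hB v a b) (not_le.2 c)
  choose b hb using key
  have f1 : {d : ι → ℕ | ∀ p, d p ∈ Set.Iic N}.Finite := Set.Finite.pi' fun _ => Set.finite_Iic N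
  have f2 := (Set.Finite.pi' fun _ : ι => f1).prod (f1.prod (f1.prod f1).finite_subsets)
  obtain ⟨B, hB⟩ := (f2.image b).bddAbove
  refine ⟨B, fun h d T h1 h2 h3 h4 v h5 h6 => ?_⟩
  exact (hb (h, d, T) ((f1.prod f1).subset h3) h4 v h5 h6).trans
    (hB ⟨(h, d, T), ⟨h1, h2, h3⟩, rfl⟩)

theorem rigid_bounded [IsAlgClosed k] [FiniteDimensional k Λ] (hT : Tame k Λ) (hBD : BD k Λ) :
    ∃ B : ℕ, ∀ V : Pres k Λ, EZ V V.C →
      (∀ φ : Module.End Λ V.C.T, IsNilpotent φ ∨ Bijective φ) → V.C.dim ≤ B := by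
  classical
  obtain ⟨ι, _, G, hG, hG'⟩ := exists_add_family (FM.reg k Λ)
  have hP : ∀ j, Module.Projective Λ (G j).T := fun j => by
    obtain ⟨n, i, p, hp⟩ := hG j
    exact Module.Projective.of_split i p hp
  let s := ∑ j, (G j).dim
  obtain ⟨B, hB⟩ := uniform ι (s + s * s + finrank k Λ * (s * s))
  refine ⟨B.toNat, fun V hV hloc => ?_⟩
  let G' : ι → FM k Λ := fun j => red V.C (G j)
  have d1 : ∀ j, (G' j).dim ≤ (G j).dim := fun j =>
    dim_le_of_surj (M := G j) (N := G' j) _ (Submodule.mkQ_surjective _)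
  have d2 : ∀ j, (G' j).dim ≤ s := fun j =>
    (d1 j).trans (Finset.single_le_sum (f := fun j => (G j).dim) (fun _ _ => Nat.zero_le _)
      (Finset.mem_univ j))
  have d3 : (FM.pi G').dim ≤ s :=
    (Module.finrank_pi_fintype k).le.trans (Finset.sum_le_sum fun j _ => d1 j)
  have d4 : ∀ j, finrank k (Phi (FM.pi G') (G' j)) ≤ s + s * s + finrank k Λ * (s * s) := fun j => by
    have a := finrank_phi_le (FM.pi G') (G' j)
    have b := Nat.mul_le_mul_left (finrank k Λ) (Nat.mul_le_mul d3 (d2 j))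
    have c := d2 j
    omega
  obtain ⟨I, _, c, ⟨e1⟩⟩ := hG' V.P1 (inAdd_reg _)
  obtain ⟨J, _, d, ⟨e0⟩⟩ := hG' V.P0 (inAdd_reg _)
  obtain ⟨a, ha⟩ := cls_of_equiv e1
  obtain ⟨b, hb⟩ := cls_of_equiv e0
  replace ha := ha.red V.C
  replace hb := hb.red V.C
  have hf : Good (FM.pi G') (redMap V.C V.f) :=
    ⟨red_inj hV, lifts_of_dec (X := G') (LinearEquiv.refl _ _) fun j => red_lifts V.C (G j) _⟩
  obtain ⟨E⟩ := red_cok V
  have e1 : frmN (fun p q => hd (G' p) (G' q)) (a, b) (a, b) = _ :=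
    frm_eq (v := (a, b)) (w := (a, b)) ha hb ha hb
  have e2 := stab_ineq _ hf.1
  rw [hd_congr _ E, ← hd_congr_left E] at e2
  have e3 := end_le hT V hV hloc
  have e4 := dim_cok hf.1
  have e5 : (cok (redMap V.C V.f)).dim = V.C.dim := (E.restrictScalars k).finrank_eq
  have e6 := wt_dim (G := G') (G' := G') (v := (a, b)) ha hb
  have e7 := hB (fun p q => hd (G' p) (G' q)) (fun p => (G' p).dim) (Tst (FM.pi G') G' G')
    (fun p q => by
      have a := (hd_le_mul (G' p) (G' q)).trans (Nat.mul_le_mul (d2 p) (d2 q))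
      omega)
    (fun p => by
      have a := d2 p
      omega)
    (by
      rintro _ ⟨U, W, -, rfl⟩
      exact ⟨fun p => (Submodule.finrank_le _).trans (d4 p),
        fun p => (Submodule.finrank_le _).trans (d4 p)⟩)
    (drozd_hyp hT hBD (FM.pi G') G' G' fun {Y1 Y0 f} h p g => by
      obtain ⟨u, hu⟩ := h (g ∘ₗ LinearMap.proj p)
      refine ⟨u ∘ₗ LinearMap.single Λ (fun j => (G' j).T) p, ?_⟩
      rw [← LinearMap.comp_assoc, hu, LinearMap.comp_assoc, LinearMap.proj_comp_single_same,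
        g.comp_id])
    (a, b) (mon_of_good ha hb hf) (by omega)
  omega

end Pool.Agent.Lib.MP_146384_al
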